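import Pool.Agent.R837.FE.Key
import Pool.Agent.Y374.PF.Zero

/-!
# Generic, alternating and symmetric blocks
-/

set_option autoImplicit false
set_option linter.unusedSectionVars false

namespace Pool.Agent.R837.FE

open Finset MvPolynomial Pool.Agent.TH144.NV

/-- a block, restricted to the subspace of the coordinates in `T`, with a matched set of indices -/
structure IB (k : Type) [Field k] (N : ℕ) (w : Fin N → ℕ) (T : Finset (Fin N)) where
  V : Type
  ft : Fintype V
  lo : LinearOrder V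
  sym : Bool
  R : V → V → Prop
  hR : ∀ a b, R a b → R b a
  hR3 : ∀ a b c d, R a b → R b c → R c d → R a d
  M : Matrix V V (MvPolynomial (Fin N) k)
  hM : ∀ a b, M b a = sg _ sym * M a b
  hMd : sym = false → ∀ a, M a a = 0
  e : V → ℤ
  f : V → ℤ
  hef : ∀ a b, R a b → e a + f b = e b + f a
  dg : K sym R → ℕ
  hdg0 : ∀ x, 0 < dg x
  hdg : ∀ x : K sym R, (dg x : ℤ) = e x.1.1 + f x.1.2
  hhom : ∀ x : K sym R, IsWeightedHomogeneous w (M x.1.1 x.1.2) (dg x)
  hvan : ∀ a b, ¬ R a b → ∀ p : Fin N → k, (∀ i, i ∉ T → p i = 0) → eval p (M a b) = 0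
  B : Finset V
  hB : Adm sym R B

attribute [instance] IB.ft IB.lo

/-- the number of entries -/
noncomputable def IB.kc {k : Type} [Field k] {N : ℕ} {w : Fin N → ℕ} {T : Finset (Fin N)}
    (b : IB k N w T) : ℕ := Nat.card (K b.sym b.R)

/-- the number of entries in the matched rows and columns -/
noncomputable def IB.tc {k : Type} [Field k] {N : ℕ} {w : Fin N → ℕ} {T : Finset (Fin N)}
    (b : IB k N w T) : ℕ := (tch b.sym b.R b.B).card

theorem IB.tc_le {k : Type} [Field k] {N : ℕ} {w : Fin N → ℕ} {T : Finset (Fin N)}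
    (b : IB k N w T) : b.tc ≤ b.kc := by
  unfold IB.tc IB.kc
  classical
  rw [Nat.card_eq_fintype_card]
  exact Finset.card_le_univ _

theorem key' {k : Type} [Field k] [IsAlgClosed k] [CharZero k] {N : ℕ} (w : Fin N → ℕ)
    (hw : ∀ i, 0 < w i) (T : Finset (Fin N)) {Λ : Type} [Fintype Λ] (b : Λ → IB k N w T)
    (h0 : ∀ p : Fin N → k, (∀ i, i ∉ T → p i = 0) →
      (∀ l, ((b l).M.map (eval p)).rank ≤ (b l).B.card) → p = 0) :
    T.card ≤ ∑ l, ((b l).kc - (b l).tc) := by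
  have h1 := key (k := k) w T (fun l => (b l).V) (fun l => (b l).sym) (fun l => (b l).R)
    (fun l => (b l).hR) (fun l => (b l).hR3) (fun l => (b l).M) (fun l => (b l).hM)
    (fun l => (b l).hMd) (fun l => (b l).e) (fun l => (b l).f) (fun l => (b l).hef)
    (fun l => (b l).dg) (fun l => (b l).hdg0) (fun l => (b l).hdg) (fun l => (b l).hhom) hw
    (fun l => (b l).hvan) (fun l => (b l).B) (fun l => (b l).hB) h0
  have h2 : ∑ l, ((b l).kc - (b l).tc) + ∑ l, (b l).tc = ∑ l, (b l).kc := by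
    rw [← Finset.sum_add_distrib]
    exact Finset.sum_congr rfl fun l _ => Nat.sub_add_cancel (b l).tc_le
  have h3 : T.card + ∑ l, (b l).tc ≤ ∑ l, (b l).kc := h1
  omega

/-- the data of a block which matter for the average -/
structure BD (k : Type) [Field k] (G : Type) [Group G] (N : ℕ) (w : Fin N → ℕ)
    (α : Fin N → G →* kˣ) (top2 : ℤ) (rk : (Fin N → k) → Prop) where
  P : Type
  ft : Fintype P
  c : P → ℕ
  d : P → ℕ
  hd : ∀ p, 0 < d p
  X : P → G →* kˣ
  q : ℕ
  hq : 0 < q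
  htop : (q : ℤ) * top2 = 2 * ∑ p, (c p : ℤ) * d p
  ib : ∀ (g : G) (μ : kˣ) (T : Finset (Fin N)), (∀ i, i ∈ T ↔ α i g = μ ^ w i) → IB k N w T
  rank : ∀ g μ T hT p, (∀ i, i ∉ T → p i = 0) →
    ((ib g μ T hT).M.map (eval p)).rank ≤ (ib g μ T hT).B.card → rk p
  count : ∀ g μ T hT (E : Finset P), (∀ p, p ∈ E ↔ X p g = μ ^ d p) →
    q * ((ib g μ T hT).kc - (ib g μ T hT).tc) ≤ ∑ p ∈ E, c p

attribute [instance] BD.ft

section chars
variable {k : Type} [Field k] {G : Type} [Group G] {N : ℕ} {w : Fin N → ℕ} {α : Fin N → G →* kˣ}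

/-- the character of a row or column -/
def rc (μ : kˣ) (x : kˣ) (e : ℤ) : kˣ := x * (μ ^ e)⁻¹

theorem rc_mul_rc (μ x y : kˣ) (e f : ℤ) : rc μ x e * rc μ y f = rc μ (x * y) (e + f) := by
  unfold rc
  rw [zpow_add]
  simp only [mul_inv]
  exact mul_mul_mul_comm _ _ _ _

theorem rc_eq_one (μ x : kˣ) (e : ℤ) (m : ℕ) (h : (m : ℤ) = e) : rc μ x e = 1 ↔ x = μ ^ m := by
  unfold rc
  rw [← h, zpow_natCast, mul_inv_eq_one]

/-- entries whose characters do not match vanish -/
theorem van {g : G} {μ : kˣ} {T : Finset (Fin N)} (hT : ∀ i, i ∈ T ↔ α i g = μ ^ w i)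
    {F : MvPolynomial (Fin N) k} {x : kˣ} {e : ℤ} (he : 0 < e)
    (hF : ∀ m : ℕ, (m : ℤ) = e → IsWeightedHomogeneous w F m)
    (hs : act (fun i => (α i g : k)) F = C (x : k) * F) (hne : rc μ x e ≠ 1)
    (p : Fin N → k) (hp : ∀ i, i ∉ T → p i = 0) : eval p F = 0 := by
  obtain ⟨m, hm⟩ := Int.eq_ofNat_of_zero_le he.le
  refine Pool.Agent.Y374.PF.eval_eq_zero_of_ne (hF m hm.symm) (fun i => (α i g : k)) (x : k)
    hs (μ : k) ?_ ?_
  · intro i
    by_cases hi : i ∈ T
    · rw [(hT i).1 hi, Units.val_pow_eq_pow_val]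
    · rw [hp i hi, mul_zero, mul_zero]
  · intro h3
    apply hne
    rw [rc_eq_one μ x e m hm.symm]
    ext
    rw [h3, Units.val_pow_eq_pow_val]

end chars

end Pool.Agent.R837.FE
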