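import Pool.Agent.R837.FE.Gen

/-!
# Vertices of a graph which lie on a large part of the edges and can be matched
-/

set_option autoImplicit false
set_option linter.unusedSectionVars false

namespace Pool.Agent.R837.FE

open Finset

section greedy
variable {κ γ : Type*} [DecidableEq κ] [DecidableEq γ]

/-- one member of a family of sets can be left out -/
theorem exists_erase (t : γ → Finset κ) (S : Finset γ) (hS : 0 < S.card) :
    ∃ i ∈ S, (S.card - 1) * (S.biUnion t).card ≤ S.card * ((S.erase i).biUnion t).card := by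
  set priv : γ → Finset κ := fun i => S.biUnion t \ (S.erase i).biUnion t with hpriv
  have hdisj : ∀ i ∈ S, ∀ j ∈ S, i ≠ j → Disjoint (priv i) (priv j) := by
    intro i _ j _ hij
    rw [Finset.disjoint_left]
    intro x hx hx'
    simp only [hpriv, mem_sdiff, mem_biUnion, mem_erase, not_exists, not_and] at hx hx'
    obtain ⟨⟨l, hl, hlx⟩, h2⟩ := hx
    have h3 : l = i := by
      by_contra h
      exact h2 l ⟨h, hl⟩ hlx
    have h4 : l = j := by
      by_contra h
      exact hx'.2 l ⟨h, hl⟩ hlx
    exact hij (h3.symm.trans h4)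
  have hsum : ∑ i ∈ S, (priv i).card ≤ (S.biUnion t).card := by
    rw [← Finset.card_biUnion hdisj]
    refine Finset.card_le_card ?_
    intro x hx
    obtain ⟨i, _, hi⟩ := Finset.mem_biUnion.1 hx
    exact (Finset.mem_sdiff.1 hi).1
  obtain ⟨i, hi, hmin⟩ := Finset.exists_min_image S (fun i => (priv i).card)
    (Finset.card_pos.1 hS)
  refine ⟨i, hi, ?_⟩
  have h1 : S.card * (priv i).card ≤ (S.biUnion t).card := by
    refine le_trans ?_ hsum
    have := Finset.card_nsmul_le_sum S (fun i => (priv i).card) (priv i).card hmin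
    simpa [smul_eq_mul] using this
  have h2 : (priv i).card = (S.biUnion t).card - ((S.erase i).biUnion t).card := by
    rw [hpriv]
    exact Finset.card_sdiff_of_subset (Finset.biUnion_subset_biUnion_of_subset_left _
      (Finset.erase_subset _ _))
  have h3 : ((S.erase i).biUnion t).card ≤ (S.biUnion t).card :=
    Finset.card_le_card (Finset.biUnion_subset_biUnion_of_subset_left _ (Finset.erase_subset _ _))
  rw [h2] at h1
  obtain ⟨d, hd⟩ := Nat.exists_eq_add_of_le h3
  rw [hd] at h1 ⊢
  rw [Nat.add_sub_cancel_left] at h1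
  obtain ⟨m, hm⟩ : ∃ m, S.card = m + 1 := ⟨S.card - 1, by omega⟩
  rw [hm] at h1 ⊢
  rw [Nat.add_sub_cancel]
  nlinarith

/-- some `s` members of a family of `m` sets cover at least the `s / m`-th part of the union -/
theorem exists_subfamily (t : γ → Finset κ) (S : Finset γ) (s : ℕ) (hs : s ≤ S.card) :
    ∃ S' ⊆ S, S'.card = s ∧ s * (S.biUnion t).card ≤ S.card * (S'.biUnion t).card := by
  obtain ⟨j, hj⟩ := Nat.exists_eq_add_of_le hs
  induction j generalizing s with
  | zero => exact ⟨S, Subset.refl _, by omega, by rw [hj]; simp⟩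
  | succ j ih =>
    obtain ⟨S1, hS1, hc1, h1⟩ := ih (s + 1) (by omega) (by omega)
    obtain ⟨i, hi, h2⟩ := exists_erase t S1 (by omega)
    refine ⟨S1.erase i, (Finset.erase_subset _ _).trans hS1, by
      rw [Finset.card_erase_of_mem hi]; omega, ?_⟩
    rw [hc1, Nat.add_sub_cancel] at h2
    have h3 : (s + 1) * (s * (S.biUnion t).card) ≤
        (s + 1) * (S.card * ((S1.erase i).biUnion t).card) := by
      calc (s + 1) * (s * (S.biUnion t).card) = s * ((s + 1) * (S.biUnion t).card) := by ring
        _ ≤ s * (S.card * (S1.biUnion t).card) := Nat.mul_le_mul_left _ h1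
        _ = S.card * (s * (S1.biUnion t).card) := by ring
        _ ≤ S.card * ((s + 1) * ((S1.erase i).biUnion t).card) := Nat.mul_le_mul_left _ h2
        _ = _ := by ring
    exact Nat.le_of_mul_le_mul_left h3 (Nat.succ_pos s)

end greedy

section graph
variable {V : Type*} [Fintype V] [LinearOrder V] (sym : Bool) (R : V → V → Prop)

/-- the vertices in `B` can be matched by edges and, in the symmetric case, loops -/
def Adm (B : Finset V) : Prop := ∃ π : V → V, (∀ b ∈ B, π b ∈ B) ∧ (∀ b ∈ B, π (π b) = b) ∧
  (∀ b ∈ B, R b (π b)) ∧ (sym = false → ∀ b ∈ B, π b ≠ b)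

/-- a pair of vertices which can be matched -/
def GoodC (c : V × V) : Prop := c.1 ≠ c.2 ∧ (R c.1 c.2 ∨ (sym = true ∧ R c.1 c.1 ∧ R c.2 c.2))

/-- disjoint pairs of vertices which can be matched -/
def Fam (S : Finset (V × V)) : Prop := (∀ c ∈ S, GoodC sym R c) ∧ ∀ c ∈ S, ∀ c' ∈ S, c ≠ c' →
  c.1 ≠ c'.1 ∧ c.1 ≠ c'.2 ∧ c.2 ≠ c'.1 ∧ c.2 ≠ c'.2

/-- their vertices -/
def Bs (S : Finset (V × V)) : Finset V := S.biUnion fun c => {c.1, c.2}

open Classical in
/-- the edges which meet `B` -/
noncomputable def tch (B : Finset V) : Finset (K sym R) := univ.filter fun x => x.1.1 ∈ B ∨ x.1.2 ∈ B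

variable {sym R}

theorem adm_empty : Adm sym R ∅ := ⟨id, by simp, by simp, by simp, by simp⟩

theorem adm_loop (hs : sym = true) {B : Finset V} (h : Adm sym R B) {a : V} (ha : a ∉ B)
    (hR : R a a) : Adm sym R (insert a B) := by
  classical
  obtain ⟨π, h1, h2, h3, h4⟩ := h
  have hne : ∀ b ∈ B, b ≠ a := fun b hb h => ha (h ▸ hb)
  refine ⟨fun v => if v = a then a else π v, ?_, ?_, ?_, ?_⟩
  · intro b hb
    rcases Finset.mem_insert.1 hb with rfl | hb
    · simp
    · simp only [if_neg (hne b hb)]
      exact Finset.mem_insert_of_mem (h1 b hb)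
  · intro b hb
    rcases Finset.mem_insert.1 hb with rfl | hb
    · simp
    · simp only [if_neg (hne b hb), if_neg (hne _ (h1 b hb))]
      exact h2 b hb
  · intro b hb
    rcases Finset.mem_insert.1 hb with rfl | hb
    · simpa using hR
    · simp only [if_neg (hne b hb)]
      exact h3 b hb
  · intro h; rw [hs] at h; exact absurd h (by simp)

theorem adm_edge (hR : ∀ a b, R a b → R b a) {B : Finset V} (h : Adm sym R B) {a b : V}
    (ha : a ∉ B) (hb : b ∉ B) (hab : a ≠ b) (hRab : R a b) :
    Adm sym R (insert a (insert b B)) := by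
  classical
  obtain ⟨π, h1, h2, h3, h4⟩ := h
  have hna : ∀ c ∈ B, c ≠ a := fun c hc h => ha (h ▸ hc)
  have hnb : ∀ c ∈ B, c ≠ b := fun c hc h => hb (h ▸ hc)
  have hmem : ∀ c, c ∈ insert a (insert b B) → c = a ∨ c = b ∨ c ∈ B := by
    intro c hc
    simpa using hc
  refine ⟨fun v => if v = a then b else if v = b then a else π v, ?_, ?_, ?_, ?_⟩
  · intro c hc
    rcases hmem c hc with rfl | rfl | hc
    · simp
    · simp [hab.symm]
    · simp only [if_neg (hna c hc), if_neg (hnb c hc)]
      simp [h1 c hc]
  · intro c hc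
    rcases hmem c hc with rfl | rfl | hc
    · simp [hab.symm]
    · simp [hab.symm]
    · simp only [if_neg (hna c hc), if_neg (hnb c hc), if_neg (hna _ (h1 c hc)),
        if_neg (hnb _ (h1 c hc))]
      exact h2 c hc
  · intro c hc
    rcases hmem c hc with rfl | rfl | hc
    · simpa using hRab
    · simpa [hab.symm] using hR _ _ hRab
    · simp only [if_neg (hna c hc), if_neg (hnb c hc)]
      exact h3 c hc
  · intro hs c hc
    rcases hmem c hc with rfl | rfl | hc
    · simpa using hab.symm
    · simpa [hab.symm] using hab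
    · simp only [if_neg (hna c hc), if_neg (hnb c hc)]
      exact h4 hs c hc

theorem Fam.subset {S S' : Finset (V × V)} (h : Fam sym R S) (hs : S' ⊆ S) : Fam sym R S' :=
  ⟨fun c hc => h.1 c (hs hc), fun c hc c' hc' => h.2 c (hs hc) c' (hs hc')⟩

theorem mem_Bs {S : Finset (V × V)} {v : V} : v ∈ Bs S ↔ ∃ c ∈ S, v = c.1 ∨ v = c.2 := by
  simp [Bs]

theorem Bs_insert {S : Finset (V × V)} {c : V × V} :
    Bs (insert c S) = insert c.1 (insert c.2 (Bs S)) := by
  ext v
  simp only [Bs, Finset.biUnion_insert, Finset.mem_union, Finset.mem_insert,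
    Finset.mem_singleton]
  tauto

theorem Fam.notMem {S : Finset (V × V)} {c : V × V} (hc : c ∉ S) (h : Fam sym R (insert c S)) :
    c.1 ∉ Bs S ∧ c.2 ∉ Bs S := by
  constructor <;>
  · intro h1
    obtain ⟨c', hc', h2⟩ := mem_Bs.1 h1
    have h3 := h.2 c (Finset.mem_insert_self _ _) c' (Finset.mem_insert_of_mem hc')
      (fun h => hc (h ▸ hc'))
    tauto

theorem adm_Bs (hR : ∀ a b, R a b → R b a) {S : Finset (V × V)} (h : Fam sym R S) :
    Adm sym R (Bs S) := by
  classical
  induction S using Finset.induction_on with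
  | empty => exact adm_empty
  | insert c S hc ih =>
    have h1 := ih (h.subset (Finset.subset_insert _ _))
    obtain ⟨h2, h3⟩ := h.notMem hc
    obtain ⟨h4, h5⟩ := h.1 c (Finset.mem_insert_self _ _)
    rw [Bs_insert]
    rcases h5 with h5 | ⟨hs, h5, h6⟩
    · exact adm_edge hR h1 h2 h3 h4 h5
    · refine adm_loop hs (adm_loop hs h1 h3 h6) ?_ h5
      rw [Finset.mem_insert]
      tauto

theorem card_Bs {S : Finset (V × V)} (h : Fam sym R S) : (Bs S).card = 2 * S.card := by
  classical
  induction S using Finset.induction_on with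
  | empty => rfl
  | insert c S hc ih =>
    have h1 := ih (h.subset (Finset.subset_insert _ _))
    obtain ⟨h2, h3⟩ := h.notMem hc
    obtain ⟨h4, h5⟩ := h.1 c (Finset.mem_insert_self _ _)
    rw [Bs_insert, Finset.card_insert_of_notMem, Finset.card_insert_of_notMem h3, h1,
      Finset.card_insert_of_notMem hc]
    · ring
    · rw [Finset.mem_insert]
      tauto

theorem tch_Bs (S : Finset (V × V)) : tch sym R (Bs S) = S.biUnion fun c => tch sym R {c.1, c.2} := by
  classical
  ext x
  simp only [tch, Finset.mem_filter, Finset.mem_univ, true_and, mem_Bs, Finset.mem_biUnion,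
    Finset.mem_insert, Finset.mem_singleton]
  constructor
  · rintro (⟨c, hc, h⟩ | ⟨c, hc, h⟩)
    · exact ⟨c, hc, Or.inl h⟩
    · exact ⟨c, hc, Or.inr h⟩
  · rintro ⟨c, hc, h | h⟩
    · exact Or.inl ⟨c, hc, h⟩
    · exact Or.inr ⟨c, hc, h⟩

/-- a part of the pairs meets a part of the edges -/
theorem Fam.exists_sub {S : Finset (V × V)} (h : Fam sym R S) {s : ℕ} (hs : s ≤ S.card) :
    ∃ S', Fam sym R S' ∧ S'.card = s ∧
      s * (tch sym R (Bs S)).card ≤ S.card * (tch sym R (Bs S')).card := by
  classical
  obtain ⟨S', h1, h2, h3⟩ := exists_subfamily (fun c => tch sym R {c.1, c.2}) S s hs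
  refine ⟨S', h.subset h1, h2, ?_⟩
  rw [tch_Bs, tch_Bs]
  exact h3

variable (sym R)

/-- a maximal family -/
theorem exists_max : ∃ S, Fam sym R S ∧ ∀ c, GoodC sym R c → c.1 ∈ Bs S ∨ c.2 ∈ Bs S := by
  classical
  obtain ⟨S, hS, hmax⟩ := Finset.exists_max_image
    ((univ : Finset (Finset (V × V))).filter (Fam sym R)) Finset.card
    ⟨∅, by rw [Finset.mem_filter]; exact ⟨mem_univ _, by simp [Fam]⟩⟩
  have hF : Fam sym R S := (Finset.mem_filter.1 hS).2
  refine ⟨S, hF, fun c hc => ?_⟩
  by_contra hcon
  push Not at hcon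
  have hcS : c ∉ S := fun h => hcon.1 (mem_Bs.2 ⟨c, h, Or.inl rfl⟩)
  have key : ∀ c' ∈ S, c.1 ≠ c'.1 ∧ c.1 ≠ c'.2 ∧ c.2 ≠ c'.1 ∧ c.2 ≠ c'.2 := by
    intro c' hc'
    refine ⟨fun h => hcon.1 (mem_Bs.2 ⟨c', hc', Or.inl h⟩),
      fun h => hcon.1 (mem_Bs.2 ⟨c', hc', Or.inr h⟩),
      fun h => hcon.2 (mem_Bs.2 ⟨c', hc', Or.inl h⟩),
      fun h => hcon.2 (mem_Bs.2 ⟨c', hc', Or.inr h⟩)⟩
  have h1 : Fam sym R (insert c S) := by
    refine ⟨?_, ?_⟩
    · intro c' hc'
      rcases Finset.mem_insert.1 hc' with rfl | hc'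
      · exact hc
      · exact hF.1 c' hc'
    · intro c1 h1 c2 h2 hne
      rcases Finset.mem_insert.1 h1 with h1' | h1'
      · rcases Finset.mem_insert.1 h2 with h2' | h2'
        · exact absurd (h1'.trans h2'.symm) hne
        · rw [h1']
          exact key c2 h2'
      · rcases Finset.mem_insert.1 h2 with h2' | h2'
        · have := key c1 h1'
          rw [h2']
          exact ⟨this.1.symm, this.2.2.1.symm, this.2.1.symm, this.2.2.2.symm⟩
        · exact hF.2 c1 h1' c2 h2' hne
  have h2 := hmax (insert c S) (Finset.mem_filter.2 ⟨mem_univ _, h1⟩)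
  rw [Finset.card_insert_of_notMem hcS] at h2
  omega

variable {sym R}

theorem mem_tch {B : Finset V} {x : K sym R} : x ∈ tch sym R B ↔ x.1.1 ∈ B ∨ x.1.2 ∈ B := by
  simp [tch]

/-- the edges which do not meet a maximal family are loops -/
theorem untouched {S : Finset (V × V)} (hmax : ∀ c, GoodC sym R c → c.1 ∈ Bs S ∨ c.2 ∈ Bs S)
    {x : K sym R} (hx : x ∉ tch sym R (Bs S)) : sym = true ∧ x.1.1 = x.1.2 := by
  rw [mem_tch] at hx
  push Not at hx
  by_cases h : x.1.1 = x.1.2
  · refine ⟨?_, h⟩
    rcases x.2.1 with h1 | h1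
    · exact absurd h (ne_of_lt h1)
    · exact h1.1
  · rcases hmax x.1 ⟨h, Or.inl x.2.2⟩ with h1 | h1
    · exact absurd h1 hx.1
    · exact absurd h1 hx.2

/-- the alternating case -/
theorem comb_alt (hR : ∀ a b, R a b → R b a) (hsym : sym = false) (s : ℕ) :
    ∃ B, Adm sym R B ∧ B.card ≤ 2 * s ∧ ((tch sym R B).card = Nat.card (K sym R) ∨
      ∃ ν, s < ν ∧ 2 * ν ≤ Fintype.card V ∧ s * Nat.card (K sym R) ≤ ν * (tch sym R B).card ∧
        (2 * ν = Fintype.card V → Adm sym R univ)) := by
  classical
  obtain ⟨S, hF, hmax⟩ := exists_max sym R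
  have htot : (tch sym R (Bs S)).card = Nat.card (K sym R) := by
    rw [Nat.card_eq_fintype_card, ← Finset.card_univ]
    congr 1
    ext x
    simp only [mem_univ, iff_true]
    by_contra h
    have := (untouched hmax h).1
    rw [hsym] at this
    exact Bool.false_ne_true this
  rcases le_or_gt S.card s with h | h
  · exact ⟨Bs S, adm_Bs hR hF, by rw [card_Bs hF]; omega, Or.inl htot⟩
  · obtain ⟨S', h1, h2, h3⟩ := hF.exists_sub h.le
    have h4 : 2 * S.card ≤ Fintype.card V := by
      rw [← card_Bs hF]
      exact Finset.card_le_univ _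
    refine ⟨Bs S', adm_Bs hR h1, by rw [card_Bs h1]; omega, Or.inr ⟨S.card, h, h4, ?_, ?_⟩⟩
    · rw [← htot]; exact h3
    · intro h5
      have h6 : Bs S = univ := by
        rw [← Finset.card_eq_iff_eq_univ, card_Bs hF, h5]
      rw [← h6]
      exact adm_Bs hR hF

/-- all alternating formats -/
theorem comb_alt' (hR : ∀ a b, R a b → R b a) (hsym : sym = false) (s h : ℕ)
    (hV : Fintype.card V = 2 * h + 1 ∨ Fintype.card V = 2 * h + 2) (hsh : s ≤ h) :
    ∃ B, Adm sym R B ∧ B.card ≤ 2 * s ∧ (s * Nat.card (K sym R) ≤ h * (tch sym R B).card ∨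
      (Adm sym R univ ∧ Fintype.card V = 2 * h + 2 ∧
        s * (Nat.card (K sym R) - 1) ≤ h * (tch sym R B).card)) := by
  classical
  obtain ⟨S, hF, hmax⟩ := exists_max sym R
  have htot : (tch sym R (Bs S)).card = Nat.card (K sym R) := by
    rw [Nat.card_eq_fintype_card, ← Finset.card_univ]
    congr 1
    ext x
    simp only [mem_univ, iff_true]
    by_contra h
    have := (untouched hmax h).1
    rw [hsym] at this
    exact Bool.false_ne_true this
  have h4 : 2 * S.card ≤ Fintype.card V := by
    rw [← card_Bs hF]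
    exact Finset.card_le_univ _
  rcases le_or_gt S.card s with h1 | h1
  · refine ⟨Bs S, adm_Bs hR hF, by rw [card_Bs hF]; omega, Or.inl ?_⟩
    rw [htot]
    exact Nat.mul_le_mul_right _ hsh
  rcases le_or_gt S.card h with h2 | h2
  · obtain ⟨S', h3, h5, h6⟩ := hF.exists_sub h1.le
    refine ⟨Bs S', adm_Bs hR h3, by rw [card_Bs h3]; omega, Or.inl ?_⟩
    rw [← htot]
    exact h6.trans (Nat.mul_le_mul_right _ h2)
  · have hV2 : Fintype.card V = 2 * h + 2 := by omega
    have hSh : S.card = h + 1 := by omega
    have h6 : Bs S = univ := by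
      rw [← Finset.card_eq_iff_eq_univ, card_Bs hF]
      omega
    have hadm : Adm sym R univ := by
      rw [← h6]
      exact adm_Bs hR hF
    obtain ⟨c, hc⟩ : S.Nonempty := by
      rw [← Finset.card_pos]; omega
    have h7 : Fam sym R (S.erase c) := hF.subset (Finset.erase_subset _ _)
    have h8 : (S.erase c).card = h := by
      rw [Finset.card_erase_of_mem hc]; omega
    obtain ⟨S', h3, h5, h9⟩ := h7.exists_sub (s := s) (by omega)
    refine ⟨Bs S', adm_Bs hR h3, by rw [card_Bs h3]; omega, Or.inr ⟨hadm, hV2, ?_⟩⟩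
    rw [h8] at h9
    refine le_trans (Nat.mul_le_mul_left _ ?_) h9
    -- at most one edge is lost
    have h10 : (univ \ tch sym R (Bs (S.erase c))).card ≤ 1 := by
      rw [Finset.card_le_one]
      have key : ∀ x : K sym R, x ∈ univ \ tch sym R (Bs (S.erase c)) →
          (x.1.1 = c.1 ∨ x.1.1 = c.2) ∧ (x.1.2 = c.1 ∨ x.1.2 = c.2) := by
        intro x hx
        rw [mem_sdiff, mem_tch] at hx
        have hx2 := hx.2
        push Not at hx2
        have h11 : ∀ v, v ∉ Bs (S.erase c) → v = c.1 ∨ v = c.2 := by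
          intro v hv
          have hv2 : v ∈ Bs S := by rw [h6]; exact mem_univ _
          obtain ⟨c', hc', h12⟩ := mem_Bs.1 hv2
          by_cases h13 : c' = c
          · rw [h13] at h12; exact h12
          · exact absurd (mem_Bs.2 ⟨c', Finset.mem_erase.2 ⟨h13, hc'⟩, h12⟩) hv
        exact ⟨h11 _ hx2.1, h11 _ hx2.2⟩
      intro x hx y hy
      have h11 := key x hx
      have h12 := key y hy
      have hx1 : x.1.1 < x.1.2 := by
        rcases x.2.1 with h | ⟨h, _⟩
        · exact h
        · rw [hsym] at h; exact absurd h (by simp)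
      have hy1 : y.1.1 < y.1.2 := by
        rcases y.2.1 with h | ⟨h, _⟩
        · exact h
        · rw [hsym] at h; exact absurd h (by simp)
      apply Subtype.ext
      apply Prod.ext
      · rcases h11.1 with e1 | e1 <;> rcases h12.1 with e2 | e2
        · rw [e1, e2]
        · rcases h11.2 with e3 | e3
          · rw [e1, e3] at hx1; exact absurd hx1 (lt_irrefl _)
          · rcases h12.2 with e4 | e4
            · rw [e1, e3] at hx1; rw [e2, e4] at hy1; exact absurd hx1 (lt_asymm hy1)
            · rw [e2, e4] at hy1; exact absurd hy1 (lt_irrefl _)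
        · rcases h11.2 with e3 | e3
          · rcases h12.2 with e4 | e4
            · rw [e2, e4] at hy1; exact absurd hy1 (lt_irrefl _)
            · rw [e1, e3] at hx1; rw [e2, e4] at hy1; exact absurd hx1 (lt_asymm hy1)
          · rw [e1, e3] at hx1; exact absurd hx1 (lt_irrefl _)
        · rw [e1, e2]
      · rcases h11.2 with e1 | e1 <;> rcases h12.2 with e2 | e2
        · rw [e1, e2]
        · rcases h11.1 with e3 | e3
          · rw [e1, e3] at hx1; exact absurd hx1 (lt_irrefl _)
          · rcases h12.1 with e4 | e4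
            · rw [e1, e3] at hx1; rw [e2, e4] at hy1; exact absurd hx1 (lt_asymm hy1)
            · rw [e2, e4] at hy1; exact absurd hy1 (lt_irrefl _)
        · rcases h11.1 with e3 | e3
          · rcases h12.1 with e4 | e4
            · rw [e2, e4] at hy1; exact absurd hy1 (lt_irrefl _)
            · rw [e1, e3] at hx1; rw [e2, e4] at hy1; exact absurd hx1 (lt_asymm hy1)
          · rw [e1, e3] at hx1; exact absurd hx1 (lt_irrefl _)
        · rw [e1, e2]
    rw [Finset.card_sdiff_of_subset (Finset.subset_univ _), Finset.card_univ] at h10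
    rw [Nat.card_eq_fintype_card]
    omega

/-- the symmetric case, odd size -/
theorem comb_sym (hR : ∀ a b, R a b → R b a) (hsym : sym = true) (s h : ℕ)
    (hV : Fintype.card V = 2 * h + 1) (hsh : s ≤ h) :
    ∃ B, Adm sym R B ∧ B.card ≤ 2 * s ∧ (s * Nat.card (K sym R) ≤ h * (tch sym R B).card ∨
      (Adm sym R univ ∧ s * (Nat.card (K sym R) - 1) ≤ h * (tch sym R B).card)) := by
  classical
  obtain ⟨S, hF, hmax⟩ := exists_max sym R
  have h4 : 2 * S.card ≤ Fintype.card V := by
    rw [← card_Bs hF]
    exact Finset.card_le_univ _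
  have hSh : S.card ≤ h := by omega
  by_cases htot : ∀ x, x ∈ tch sym R (Bs S)
  · have htot : (tch sym R (Bs S)).card = Nat.card (K sym R) := by
      rw [Nat.card_eq_fintype_card, ← Finset.card_univ]
      congr 1
      ext x
      simp only [mem_univ, iff_true]
      exact htot x
    rcases le_or_gt S.card s with h1 | h1
    · refine ⟨Bs S, adm_Bs hR hF, by rw [card_Bs hF]; omega, Or.inl ?_⟩
      rw [htot]
      exact Nat.mul_le_mul_right _ hsh
    · obtain ⟨S', h3, h5, h6⟩ := hF.exists_sub h1.le
      refine ⟨Bs S', adm_Bs hR h3, by rw [card_Bs h3]; omega, Or.inl ?_⟩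
      rw [← htot]
      exact h6.trans (Nat.mul_le_mul_right _ hSh)
  · push Not at htot
    obtain ⟨x0, hx0⟩ := htot
    obtain ⟨_, hloop⟩ := untouched hmax hx0
    have hx0' := hx0
    rw [mem_tch] at hx0'
    push Not at hx0'
    have hRa : R x0.1.1 x0.1.1 := by
      have := x0.2.2
      rwa [← hloop] at this
    have honly : ∀ x, x ∉ tch sym R (Bs S) → x = x0 := by
      intro x hx
      obtain ⟨_, hl⟩ := untouched hmax hx
      by_contra hne
      have h1 : x.1.1 ≠ x0.1.1 := by
        intro h
        apply hne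
        apply Subtype.ext
        apply Prod.ext
        · exact h
        · rw [← hl, ← hloop, h]
      have hRx : R x.1.1 x.1.1 := by
        have := x.2.2
        rwa [← hl] at this
      rw [mem_tch] at hx
      push Not at hx
      rcases hmax (x.1.1, x0.1.1) ⟨h1, Or.inr ⟨hsym, hRx, hRa⟩⟩ with h2 | h2
      · exact hx.1 h2
      · exact hx0'.1 h2
    have hcard : Nat.card (K sym R) - 1 ≤ (tch sym R (Bs S)).card := by
      have h1 : (univ \ tch sym R (Bs S)).card ≤ 1 := by
        rw [Finset.card_le_one]
        intro x hx y hy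
        rw [honly x (Finset.mem_sdiff.1 hx).2, honly y (Finset.mem_sdiff.1 hy).2]
      rw [Finset.card_sdiff_of_subset (Finset.subset_univ _), Finset.card_univ] at h1
      rw [Nat.card_eq_fintype_card]
      omega
    have hadm : Adm sym R (insert x0.1.1 (Bs S)) := adm_loop hsym (adm_Bs hR hF) hx0'.1 hRa
    have hcB : (insert x0.1.1 (Bs S)).card = 2 * S.card + 1 := by
      rw [Finset.card_insert_of_notMem hx0'.1, card_Bs hF]
    rcases lt_or_ge S.card s with h1 | h1
    · refine ⟨insert x0.1.1 (Bs S), hadm, by omega, Or.inl ?_⟩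
      have h2 : (tch sym R (insert x0.1.1 (Bs S))).card = Nat.card (K sym R) := by
        rw [Nat.card_eq_fintype_card, ← Finset.card_univ]
        congr 1
        ext x
        simp only [mem_univ, iff_true]
        rw [mem_tch]
        by_cases h3 : x ∈ tch sym R (Bs S)
        · rw [mem_tch] at h3
          rcases h3 with h3 | h3
          · exact Or.inl (Finset.mem_insert_of_mem h3)
          · exact Or.inr (Finset.mem_insert_of_mem h3)
        · rw [honly x h3]
          exact Or.inl (Finset.mem_insert_self _ _)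
      rw [h2]
      exact Nat.mul_le_mul_right _ hsh
    · obtain ⟨S', h3, h5, h6⟩ := hF.exists_sub h1
      have h7 : s * (Nat.card (K sym R) - 1) ≤ S.card * (tch sym R (Bs S')).card :=
        (Nat.mul_le_mul_left _ hcard).trans h6
      refine ⟨Bs S', adm_Bs hR h3, by rw [card_Bs h3]; omega, ?_⟩
      rcases hSh.lt_or_eq with h8 | h8
      · left
        -- the number of edges
        have h9 : S.card + 1 ≤ Nat.card (K sym R) := by
          have hch : ∀ c ∈ S, ∃ x : K sym R, (x.1.1 = c.1 ∨ x.1.1 = c.2) := by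
            intro c hc
            obtain ⟨h10, h11⟩ := hF.1 c hc
            rcases h11 with h11 | ⟨_, h11, _⟩
            · rcases lt_or_gt_of_ne h10 with h12 | h12
              · exact ⟨⟨(c.1, c.2), Or.inl h12, h11⟩, Or.inl rfl⟩
              · exact ⟨⟨(c.2, c.1), Or.inl h12, hR _ _ h11⟩, Or.inr rfl⟩
            · exact ⟨⟨(c.1, c.1), Or.inr ⟨hsym, rfl⟩, h11⟩, Or.inl rfl⟩
          have : Nonempty (K sym R) := ⟨x0⟩
          choose! F hF' using hch
          have h10 : S.card ≤ (tch sym R (Bs S)).card := by
            refine Finset.card_le_card_of_injOn F ?_ ?_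
            · intro c hc
              rw [Finset.mem_coe, mem_tch]
              exact Or.inl (mem_Bs.2 ⟨c, hc, hF' c hc⟩)
            · intro c hc c' hc' he
              by_contra hne
              have h11 := hF.2 c hc c' hc' hne
              have h12 := hF' c hc
              have h13 := hF' c' hc'
              rw [← he] at h13
              rcases h12 with h12 | h12 <;> rcases h13 with h13 | h13
              · exact h11.1 (h12.symm.trans h13)
              · exact h11.2.1 (h12.symm.trans h13)
              · exact h11.2.2.1 (h12.symm.trans h13)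
              · exact h11.2.2.2 (h12.symm.trans h13)
          have h11 : (tch sym R (Bs S)).card < Nat.card (K sym R) := by
            rw [Nat.card_eq_fintype_card, ← Finset.card_univ]
            apply Finset.card_lt_card
            rw [Finset.ssubset_univ_iff]
            intro h
            rw [h] at hx0
            exact hx0 (mem_univ _)
          omega
        rcases Nat.eq_zero_or_pos S.card with h10 | h10
        · have : s = 0 := by omega
          rw [this]
          simp
        · have h11 : S.card * (s * Nat.card (K sym R)) ≤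
              S.card * (h * (tch sym R (Bs S')).card) := by
            obtain ⟨m, hm⟩ : ∃ m, Nat.card (K sym R) = m + 1 := ⟨_, (Nat.sub_add_cancel (by omega)).symm⟩
            rw [hm] at h7 h9 ⊢
            rw [Nat.add_sub_cancel] at h7
            have h12 : S.card * (m + 1) ≤ h * m := by
              obtain ⟨d, hd⟩ := Nat.exists_eq_add_of_lt h8
              rw [hd]
              nlinarith
            calc S.card * (s * (m + 1)) = s * (S.card * (m + 1)) := by ring
              _ ≤ s * (h * m) := Nat.mul_le_mul_left _ h12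
              _ = h * (s * m) := by ring
              _ ≤ h * (S.card * (tch sym R (Bs S')).card) := Nat.mul_le_mul_left _ h7
              _ = _ := by ring
          exact Nat.le_of_mul_le_mul_left h11 h10
      · right
        refine ⟨?_, by rw [← h8]; exact h7⟩
        have h9 : insert x0.1.1 (Bs S) = univ := by
          rw [← Finset.card_eq_iff_eq_univ, hcB, hV, h8]
        rw [← h9]
        exact hadm

end graph

end Pool.Agent.R837.FE
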