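import Mathlib
import Pool.Agent.H93R2.Integral

/-!
# Counting equations on a cone by transcendence degrees
-/

set_option autoImplicit false

namespace Pool.Agent.R837.FE

open MvPolynomial

variable {k : Type*} [Field k]

theorem wc_mul {τ : Type*} (W : τ → ℕ) (c f : MvPolynomial τ k) (d n : ℕ)
    (hf : IsWeightedHomogeneous W f d) (hn : d ≤ n) :
    weightedHomogeneousComponent W n (c * f) = weightedHomogeneousComponent W (n - d) c * f := by
  classical
  induction c using MvPolynomial.induction_on' with
  | monomial μ a =>
    have h1 : IsWeightedHomogeneous W (monomial μ a) (Finsupp.weight W μ) :=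
      isWeightedHomogeneous_monomial W μ a rfl
    have h2 := h1.mul hf
    by_cases h : n = Finsupp.weight W μ + d
    · have h3 : n - d = Finsupp.weight W μ := by omega
      rw [h3, h1.weightedHomogeneousComponent_same, h, h2.weightedHomogeneousComponent_same]
    · rw [h2.weightedHomogeneousComponent_ne n h,
        h1.weightedHomogeneousComponent_ne (n - d) (by omega), zero_mul]
  | add p q hp hq => rw [add_mul, map_add, map_add, hp, hq, add_mul]

theorem wc_mul_lt {τ : Type*} (W : τ → ℕ) (c f : MvPolynomial τ k) (d n : ℕ)
    (hf : IsWeightedHomogeneous W f d) (hn : n < d) :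
    weightedHomogeneousComponent W n (c * f) = 0 := by
  classical
  induction c using MvPolynomial.induction_on' with
  | monomial μ a =>
    have h1 : IsWeightedHomogeneous W (monomial μ a) (Finsupp.weight W μ) :=
      isWeightedHomogeneous_monomial W μ a rfl
    exact (h1.mul hf).weightedHomogeneousComponent_ne n (by omega)
  | add p q hp hq => rw [add_mul, map_add, hp, hq, add_zero]

/-- Nullstellensatz for systems with only the trivial zero. -/
theorem exists_pow_mem [IsAlgClosed k] {σ : Type*} [Fintype σ] (I : Ideal (MvPolynomial σ k))
    (h0 : ∀ x : σ → k, (∀ p ∈ I, eval x p = 0) → x = 0) :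
    ∃ N : ℕ, 1 ≤ N ∧ ∀ s : σ, (X s : MvPolynomial σ k) ^ N ∈ I := by
  have h1 : ∀ s : σ, ∃ N : ℕ, (X s : MvPolynomial σ k) ^ N ∈ I := by
    intro s
    have h2 : (X s : MvPolynomial σ k) ∈ vanishingIdeal k (zeroLocus k I) := by
      intro x hx
      have h3 : x = 0 := by
        apply h0
        intro p hp
        have := hx p hp
        simpa [aeval_def] using this
      subst h3
      simp
    rw [vanishingIdeal_zeroLocus_eq_radical] at h2
    exact h2
  choose N hN using h1
  refine ⟨∑ s, N s + 1, by omega, fun s => ?_⟩
  exact I.pow_mem_of_pow_mem (hN s) ((Finset.single_le_sum (fun _ _ => Nat.zero_le _)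
    (Finset.mem_univ s)).trans (Nat.le_succ _))

/-- integrality of the coordinates of a generic point over the values of the equations -/
theorem isIntegral_of_zero [IsAlgClosed k] {τ φ ι : Type*} [Fintype τ] [Fintype φ] (W : τ → ℕ)
    (f : φ → MvPolynomial τ k) (D : φ → ℕ) (hD : ∀ j, 0 < D j)
    (hf : ∀ j, IsWeightedHomogeneous W (f j) (D j))
    (g : ι → MvPolynomial τ k) (m : ι → ℕ) (hg : ∀ j, IsWeightedHomogeneous W (g j) (m j))
    (h0 : ∀ x : τ → k, (∀ j, eval x (f j) = 0) → (∀ j, eval x (g j) = 0) → x = 0)
    {L : Type*} [Field L] [Algebra k L] (y : τ → L) (hy : ∀ j, aeval y (g j) = 0) (s : τ) :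
    IsIntegral (Algebra.adjoin k (Set.range fun j => aeval y (f j))) (y s) := by
  classical
  set S0 := Algebra.adjoin k (Set.range fun j => aeval y (f j)) with hS0
  obtain ⟨N, hNpos, hN⟩ := exists_pow_mem (Ideal.span (Set.range f) ⊔ Ideal.span (Set.range g)) (by
    intro x hx
    apply h0
    · intro t
      exact hx _ (Ideal.mem_sup_left (Ideal.subset_span ⟨t, rfl⟩))
    · intro t
      exact hx _ (Ideal.mem_sup_right (Ideal.subset_span ⟨t, rfl⟩)))
  -- the key representation
  have hrep : ∀ s : τ, ∃ c : φ → MvPolynomial τ k,
      (∀ t, c t = 0 ∨ (IsWeightedHomogeneous W (c t) (N * W s - D t) ∧ D t ≤ N * W s)) ∧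
      aeval y (X s ^ N : MvPolynomial τ k) = ∑ t, aeval y (c t) * aeval y (f t) := by
    intro s
    obtain ⟨u, hu, v, hv, huv⟩ := Submodule.mem_sup.1 (hN s)
    rw [Ideal.mem_span_range_iff_exists_fun] at hu
    obtain ⟨c, hc⟩ := hu
    refine ⟨fun t => if D t ≤ N * W s then weightedHomogeneousComponent W (N * W s - D t) (c t)
      else 0, fun t => ?_, ?_⟩
    · by_cases h : D t ≤ N * W s
      · right
        simp only [if_pos h]
        exact ⟨weightedHomogeneousComponent_isWeightedHomogeneous _ _, h⟩
      · left
        simp only [if_neg h]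
    · have hX : IsWeightedHomogeneous W (X s ^ N : MvPolynomial τ k) (N * W s) := by
        have := (isWeightedHomogeneous_X k W s).pow N
        rwa [smul_eq_mul] at this
      have hv' : aeval y (weightedHomogeneousComponent W (N * W s) v) = 0 := by
        have hv2 : v ∈ Submodule.span (MvPolynomial τ k) (Set.range g) := hv
        refine Submodule.span_induction (p := fun v _ => ∀ n, aeval y
          (weightedHomogeneousComponent W n v) = 0) ?_ ?_ ?_ ?_ hv2 _
        · rintro _ ⟨j, rfl⟩ n
          by_cases h : n = m j
          · rw [h, (hg j).weightedHomogeneousComponent_same, hy]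
          · rw [(hg j).weightedHomogeneousComponent_ne n h, map_zero]
        · intro n; simp
        · intro a b _ _ ha hb n
          rw [map_add, map_add, ha, hb, add_zero]
        · intro a b hb h n
          have hb2 : ∀ n, aeval y (a * weightedHomogeneousComponent W n b) = 0 := by
            intro n
            rw [map_mul, h, mul_zero]
          -- decompose b
          have hb3 : b = ∑ i ∈ (weightedHomogeneousComponent_finsupp (w := W) b).toFinset,
              weightedHomogeneousComponent W i b := by
            have := sum_weightedHomogeneousComponent W b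
            rw [finsum_eq_sum _ (weightedHomogeneousComponent_finsupp b)] at this
            exact this.symm
          rw [smul_eq_mul]
          conv_lhs => rw [hb3]
          rw [Finset.mul_sum, map_sum, map_sum]
          refine Finset.sum_eq_zero fun i _ => ?_
          by_cases hi : i ≤ n
          · rw [wc_mul W a _ i n (weightedHomogeneousComponent_isWeightedHomogeneous _ _) hi,
              map_mul, h, mul_zero]
          · rw [wc_mul_lt W a _ i n (weightedHomogeneousComponent_isWeightedHomogeneous _ _)
              (by omega), map_zero]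
      have h1 : X s ^ N = ∑ t, (if D t ≤ N * W s then
          weightedHomogeneousComponent W (N * W s - D t) (c t) else 0) * f t +
          weightedHomogeneousComponent W (N * W s) v := by
        conv_lhs => rw [← hX.weightedHomogeneousComponent_same, ← huv, map_add, ← hc, map_sum]
        congr 1
        refine Finset.sum_congr rfl fun t _ => ?_
        by_cases h : D t ≤ N * W s
        · rw [if_pos h, wc_mul W _ _ _ _ (hf t) h]
        · rw [if_neg h, wc_mul_lt W _ _ _ _ (hf t) (by omega), zero_mul]
      rw [h1, map_add, hv', add_zero, map_sum]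
      exact Finset.sum_congr rfl fun t _ => map_mul _ _ _
  -- finitely many generators
  let gens : Set L := (fun μ : τ →₀ ℕ => aeval y (monomial μ (1 : k))) '' {μ | ∀ s, μ s < N}
  have hfin : gens.Finite := by
    apply Set.Finite.image
    have : {μ : τ →₀ ℕ | ∀ s, μ s < N} ⊆
        (fun (v : τ → Fin N) => Finsupp.equivFunOnFinite.symm fun s => (v s : ℕ)) '' Set.univ := by
      intro μ hμ
      exact ⟨fun s => ⟨μ s, hμ s⟩, trivial, by ext s; simp⟩
    exact Set.Finite.subset (Set.finite_univ.image _) this
  let K0 : Submodule S0 L := Submodule.span S0 gens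
  have hCsmul : ∀ (c : k) (x : L), x ∈ K0 → c • x ∈ K0 := by
    intro c x hx
    have h1 : c • x = (algebraMap k S0 c) • x := by
      rw [algebraMap_smul]
    rw [h1]
    exact K0.smul_mem _ hx
  have hmain : ∀ n : ℕ, ∀ μ : τ →₀ ℕ, Finsupp.weight W μ = n →
      aeval y (monomial μ (1 : k)) ∈ K0 := by
    intro n
    induction n using Nat.strong_induction_on with
    | _ n ih =>
      intro μ hμ
      by_cases hle : ∀ s, μ s < N
      · exact Submodule.subset_span ⟨μ, hle, rfl⟩
      · push Not at hle
        obtain ⟨s, hs⟩ := hle
        have h5 : μ - Finsupp.single s N + Finsupp.single s N = μ := by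
          ext t
          by_cases ht : t = s
          · subst ht; simp; omega
          · simp [Ne.symm ht]
        have h2 : monomial μ (1 : k) = monomial (μ - Finsupp.single s N) 1 * X s ^ N := by
          rw [X_pow_eq_monomial, monomial_mul, one_mul, h5]
        have h6 : Finsupp.weight W (μ - Finsupp.single s N) + N * W s = n := by
          rw [← hμ]
          conv_rhs => rw [← h5, map_add]
          simp [Finsupp.weight_single]
        obtain ⟨c, hc1, hc2⟩ := hrep s
        rw [h2, map_mul, hc2, Finset.mul_sum]
        apply K0.sum_mem
        intro t _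
        have h7 : aeval y (monomial (μ - Finsupp.single s N) (1 : k)) *
            (aeval y (c t) * aeval y (f t)) =
            (⟨aeval y (f t), Algebra.subset_adjoin ⟨t, rfl⟩⟩ : S0) •
              aeval y (monomial (μ - Finsupp.single s N) (1 : k) * c t) := by
          rw [Subalgebra.smul_def, smul_eq_mul, map_mul]
          ring
        rw [h7]
        apply K0.smul_mem
        rcases hc1 t with h8 | ⟨h8, h9⟩
        · rw [h8, mul_zero, map_zero]
          exact K0.zero_mem
        · have h10 : IsWeightedHomogeneous W (monomial (μ - Finsupp.single s N) (1 : k) * c t)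
              (Finsupp.weight W (μ - Finsupp.single s N) + (N * W s - D t)) :=
            (isWeightedHomogeneous_monomial W _ _ rfl).mul h8
          rw [(monomial (μ - Finsupp.single s N) (1 : k) * c t).as_sum, map_sum]
          apply K0.sum_mem
          intro ν hν
          have h11 := h10 (mem_support_iff.1 hν)
          have h12 : monomial ν (coeff ν (monomial (μ - Finsupp.single s N) (1 : k) * c t)) =
              C (coeff ν (monomial (μ - Finsupp.single s N) (1 : k) * c t)) *
                monomial ν (1 : k) := by
            rw [C_mul_monomial, mul_one]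
          rw [h12, map_mul, aeval_C, ← Algebra.smul_def]
          apply hCsmul
          refine ih _ ?_ ν rfl
          rw [h11]
          have := hD t
          omega
  have hall : ∀ p : MvPolynomial τ k, aeval y p ∈ K0 := by
    intro p
    rw [p.as_sum, map_sum]
    apply K0.sum_mem
    intro ν _
    have h12 : monomial ν (coeff ν p) = C (coeff ν p) * monomial ν (1 : k) := by
      rw [C_mul_monomial, mul_one]
    rw [h12, map_mul, aeval_C, ← Algebra.smul_def]
    apply hCsmul
    exact hmain _ ν rfl
  refine isIntegral_of_smul_mem_submodule (M := L) K0 ?_ ?_ (y s) ?_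
  · intro hbot
    have h1 := hall 1
    rw [hbot, map_one, Submodule.mem_bot] at h1
    exact one_ne_zero h1
  · exact Submodule.fg_span hfin
  · intro n hn
    rw [smul_eq_mul]
    induction hn using Submodule.span_induction with
    | mem x hx =>
      obtain ⟨μ, -, rfl⟩ := hx
      have h1 : y s * aeval y (monomial μ (1 : k)) = aeval y (X s * monomial μ (1 : k)) := by
        rw [map_mul, aeval_X]
      show y s * aeval y (monomial μ (1 : k)) ∈ K0
      rw [h1]
      exact hall _
    | zero => rw [mul_zero]; exact K0.zero_mem
    | add x y _ _ hx hy => rw [mul_add]; exact K0.add_mem hx hy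
    | smul a x _ hx =>
      rw [mul_smul_comm]
      exact K0.smul_mem a hx

/-- The number of equations which define the origin on a cone is at least its dimension. The cone
is given by some of its equations `g` and by a generic point `y`, whose coordinates `y ∘ e` are
algebraically independent. -/
theorem card_le [IsAlgClosed k] {τ φ ι ι0 : Type*} [Fintype τ] [Fintype φ] [Fintype ι0]
    (W : τ → ℕ) (f : φ → MvPolynomial τ k) (D : φ → ℕ) (hD : ∀ j, 0 < D j)
    (hf : ∀ j, IsWeightedHomogeneous W (f j) (D j))
    (g : ι → MvPolynomial τ k) (m : ι → ℕ) (hg : ∀ j, IsWeightedHomogeneous W (g j) (m j))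
    (h0 : ∀ x : τ → k, (∀ j, eval x (f j) = 0) → (∀ j, eval x (g j) = 0) → x = 0)
    {L : Type*} [Field L] [Algebra k L] (y : τ → L) (hy : ∀ j, aeval y (g j) = 0)
    (e : ι0 → τ) (hind : AlgebraicIndependent k (fun i => y (e i))) :
    Fintype.card ι0 ≤ Fintype.card φ :=
  Pool.Agent.H93R2.card_le_of_algebraic _ hind (fun j => aeval y (f j)) fun i =>
    (isIntegral_of_zero W f D hD hf g m hg h0 y hy (e i)).isAlgebraic

end Pool.Agent.R837.FE
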