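import Mathlib

/-!
# Generic points of varieties of symmetric and alternating matrices of bounded rank with prescribed
vanishing entries
-/

set_option autoImplicit false

namespace Pool.Agent.R837.FE

open Matrix

section
variable {V : Type*} [LinearOrder V]

/-- the positions of the independent entries of a symmetric or alternating matrix whose entries
outside `R` vanish -/
def Pos (sym : Bool) (R : V → V → Prop) (x : V × V) : Prop :=
  (x.1 < x.2 ∨ (sym = true ∧ x.1 = x.2)) ∧ R x.1 x.2

/-- the type of these positions -/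
abbrev K (sym : Bool) (R : V → V → Prop) := {x : V × V // Pos sym R x}

/-- the sign -/
def sg (S : Type*) [Ring S] (sym : Bool) : S := if sym = true then 1 else -1

open Classical in
/-- the matrix with given independent entries -/
noncomputable def mat (sym : Bool) (R : V → V → Prop) {S : Type*} [CommRing S]
    (z : K sym R → S) : Matrix V V S := fun a b =>
  if h : Pos sym R (a, b) then z ⟨(a, b), h⟩
  else if h : Pos sym R (b, a) then sg S sym * z ⟨(b, a), h⟩ else 0

theorem map_sg {S S' : Type*} [CommRing S] [CommRing S'] (sym : Bool) (f : S →+* S') :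
    f (sg S sym) = sg S' sym := by
  unfold sg
  split_ifs <;> simp

theorem sg_mul_sg (S : Type*) [CommRing S] (sym : Bool) : sg S sym * sg S sym = 1 := by
  unfold sg
  split_ifs <;> simp

theorem mat_map (sym : Bool) (R : V → V → Prop) {S S' : Type*} [CommRing S] [CommRing S']
    (z : K sym R → S) (f : S →+* S') : (mat sym R z).map f = mat sym R (fun x => f (z x)) := by
  ext a b
  simp only [Matrix.map_apply, mat]
  split_ifs
  · rfl
  · rw [map_mul, map_sg]
  · exact map_zero f

theorem mat_symm (sym : Bool) (R : V → V → Prop) {S : Type*} [CommRing S]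
    (z : K sym R → S) (a b : V) : mat sym R z b a = sg S sym * mat sym R z a b := by
  unfold mat
  by_cases h1 : Pos sym R (a, b) <;> by_cases h2 : Pos sym R (b, a)
  · -- diagonal
    have hab : a = b := by
      rcases h1.1 with h3 | ⟨_, h3⟩
      · rcases h2.1 with h4 | ⟨_, h4⟩
        · exact absurd h3 (lt_asymm h4)
        · exact h4.symm
      · exact h3
    have hs : sym = true := by
      rcases h1.1 with h3 | ⟨h3, _⟩
      · exact absurd hab (ne_of_lt h3)
      · exact h3
    subst hab
    rw [dif_pos h1]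
    simp [sg, hs]
  · simp only [dif_neg h2, dif_pos h1]
  · simp only [dif_pos h2, dif_neg h1]
    rw [← mul_assoc, sg_mul_sg, one_mul]
  · simp only [dif_neg h1, dif_neg h2, mul_zero]

theorem mat_eq_zero (sym : Bool) (R : V → V → Prop) (hR : ∀ a b, R a b → R b a) {S : Type*}
    [CommRing S] (z : K sym R → S) {a b : V} (h : ¬ R a b) : mat sym R z a b = 0 := by
  unfold mat
  rw [dif_neg (fun h1 => h h1.2), dif_neg (fun h1 => h (hR _ _ h1.2))]

theorem mat_diag (R : V → V → Prop) {S : Type*} [CommRing S] (z : K false R → S) (a : V) :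
    mat false R z a a = 0 := by
  have h : ¬ Pos false R (a, a) := by
    rintro ⟨h1 | ⟨h1, _⟩, _⟩
    · exact lt_irrefl _ h1
    · exact Bool.false_ne_true h1
  unfold mat
  rw [dif_neg h, dif_neg h]

theorem mat_of (sym : Bool) (R : V → V → Prop) (hR : ∀ a b, R a b → R b a) {S : Type*}
    [CommRing S] (A : Matrix V V S) (h1 : ∀ a b, A b a = sg S sym * A a b)
    (h2 : sym = false → ∀ a, A a a = 0) (h3 : ∀ a b, ¬ R a b → A a b = 0) :
    mat sym R (fun x => A x.1.1 x.1.2) = A := by
  ext a b
  unfold mat
  split_ifs with h4 h5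
  · rfl
  · exact (h1 b a).symm
  · by_cases hab : R a b
    · rcases lt_trichotomy a b with h6 | h6 | h6
      · exact absurd ⟨Or.inl h6, hab⟩ h4
      · subst h6
        cases sym with
        | true => exact absurd ⟨Or.inr ⟨rfl, rfl⟩, hab⟩ h4
        | false => rw [h2 rfl]
      · exact absurd ⟨Or.inl h6, hR _ _ hab⟩ h5
    · rw [h3 _ _ hab]

end

/-- the support of the inverse matrix -/
theorem inv_supp {L I : Type*} [Field L] [Fintype I] [DecidableEq I] (P : Matrix I I L)
    (hP : P.det ≠ 0) (R : I → I → Prop) (hR : ∀ a b, R a b → R b a)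
    (hR3 : ∀ a b c d, R a b → R b c → R c d → R a d) (h : ∀ i j, ¬ R i j → P i j = 0)
    {i j : I} (hij : ¬ R i j) : P⁻¹ i j = 0 := by
  classical
  have hPP : P * P⁻¹ = 1 := Matrix.mul_nonsing_inv P (isUnit_iff_ne_zero.2 hP)
  set Q : Matrix I I L := fun i j => if R i j then P⁻¹ i j else 0 with hQ
  have h1 : P * Q = 1 := by
    ext i l
    rw [Matrix.mul_apply]
    by_cases hex : ∃ j, R i j ∧ R j l
    · obtain ⟨j0, h2, h3⟩ := hex
      rw [← hPP, Matrix.mul_apply]
      refine Finset.sum_congr rfl fun j _ => ?_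
      by_cases h4 : R i j
      · have h5 : R j l := hR3 _ _ _ _ (hR _ _ h4) h2 h3
        simp only [hQ, if_pos h5]
      · rw [h _ _ h4, zero_mul, zero_mul]
    · push Not at hex
      have h2 : ∀ j, P i j * Q j l = 0 := by
        intro j
        by_cases h4 : R i j
        · simp only [hQ, if_neg (hex j h4), mul_zero]
        · rw [h _ _ h4, zero_mul]
      rw [Finset.sum_eq_zero fun j _ => h2 j]
      by_cases hil : i = l
      · subst hil
        exfalso
        have h5 : ∀ j, P i j = 0 := fun j => h _ _ fun h6 => hex j h6 (hR _ _ h6)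
        have h6 := congrFun (congrFun hPP i) i
        rw [Matrix.mul_apply, Finset.sum_eq_zero fun j _ => by rw [h5 j, zero_mul],
          Matrix.one_apply_eq] at h6
        exact zero_ne_one h6
      · rw [Matrix.one_apply_ne hil]
  have h2 : P⁻¹ = Q := by
    rw [← mul_one P⁻¹, ← h1, ← mul_assoc, Matrix.nonsing_inv_mul P (isUnit_iff_ne_zero.2 hP),
      one_mul]
  rw [h2]
  simp only [hQ, if_neg hij]

/-- a monomial matrix is invertible -/
theorem det_ne_zero_of {k I : Type*} [Field k] [Fintype I] [DecidableEq I] (P : Matrix I I k)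
    (π : I → I) (hπ : ∀ i, π (π i) = i) (h1 : ∀ i, P i (π i) ≠ 0)
    (h2 : ∀ i j, j ≠ π i → P i j = 0) : P.det ≠ 0 := by
  intro h
  obtain ⟨v, hv0, hv⟩ := Matrix.exists_mulVec_eq_zero_iff.2 h
  apply hv0
  funext j
  have h3 := congrFun hv (π j)
  rw [Matrix.mulVec, dotProduct, Finset.sum_eq_single j] at h3
  · have h4 : P (π j) j ≠ 0 := by
      have := h1 (π j)
      rwa [hπ] at this
    exact (mul_eq_zero.1 h3).resolve_left h4
  · intro l _ hl
    rw [h2 (π j) l (by rwa [hπ]), zero_mul]
  · intro h; exact absurd (Finset.mem_univ _) h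

open Classical in
/-- A generic point: the entries in the rows and columns `ι i` can be prescribed. -/
theorem exists_generic {k L : Type*} [Field k] [Field L] [CharZero L] [Algebra k L] {V : Type*}
    [Fintype V] [LinearOrder V] (sym : Bool) (R : V → V → Prop) (hR : ∀ a b, R a b → R b a)
    (hR3 : ∀ a b c d, R a b → R b c → R c d → R a d) {I : Type*} [Fintype I]
    (ι : I → V) (hι : Function.Injective ι) (π : I → I) (hπ : ∀ i, π (π i) = i)
    (hπR : ∀ i, R (ι i) (ι (π i))) (hπs : sym = false → ∀ i, π i ≠ i)
    (u : K sym R → L)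
    (hu : AlgebraicIndependent k
      (fun x : {x : K sym R // ∃ i, ι i = x.1.1 ∨ ι i = x.1.2} => u x.1)) :
    ∃ z : K sym R → L, (∀ x : K sym R, (∃ i, ι i = x.1.1 ∨ ι i = x.1.2) → z x = u x) ∧
      (mat sym R z).rank ≤ Fintype.card I := by
  set A : Matrix V V L := mat sym R u with hA
  set P : Matrix I I L := A.submatrix ι ι with hP
  -- `P` is invertible
  have hdet : P.det ≠ 0 := by
    intro hd
    let Tc := {x : K sym R // ∃ i, ι i = x.1.1 ∨ ι i = x.1.2}
    let zf : K sym R → MvPolynomial Tc k := fun x =>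
      if h : ∃ i, ι i = x.1.1 ∨ ι i = x.1.2 then MvPolynomial.X ⟨x, h⟩ else 0
    let Pf : Matrix I I (MvPolynomial Tc k) := (mat sym R zf).submatrix ι ι
    have h1 : MvPolynomial.aeval (fun x : Tc => u x.1) Pf.det = 0 := by
      rw [AlgHom.map_det, ← hd]
      congr 1
      ext i j
      simp only [AlgHom.mapMatrix_apply, Matrix.map_apply, Pf, Matrix.submatrix_apply, hP, hA, mat]
      split_ifs with h3 h4
      · simp only [zf]
        rw [dif_pos ⟨i, Or.inl rfl⟩, MvPolynomial.aeval_X]
      · simp only [zf]
        rw [dif_pos ⟨i, Or.inr rfl⟩, map_mul, MvPolynomial.aeval_X]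
        congr 1
        unfold sg
        split_ifs <;> simp
      · exact map_zero _
    have h2 : Pf.det = 0 := by
      apply hu
      rw [map_zero]
      exact h1
    -- specialisation
    let c : Tc → k := fun x => if ∃ i, ι i = x.1.1.1 ∧ ι (π i) = x.1.1.2 then 1 else 0
    have h3 : ((Pf.map (MvPolynomial.eval c))).det = 0 := by
      have h4 := congrArg (MvPolynomial.eval c) h2
      rw [RingHom.map_det, map_zero] at h4
      exact h4
    refine det_ne_zero_of _ π hπ ?_ ?_ h3
    · intro i
      have hRi := hπR i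
      simp only [Matrix.map_apply, Pf, Matrix.submatrix_apply, mat]
      rcases lt_trichotomy (ι i) (ι (π i)) with h6 | h6 | h6
      · have h7 : Pos sym R (ι i, ι (π i)) := ⟨Or.inl h6, hRi⟩
        rw [dif_pos h7]
        simp only [zf]
        rw [dif_pos ⟨i, Or.inl rfl⟩, MvPolynomial.eval_X]
        simp only [c]
        rw [if_pos ⟨i, rfl, rfl⟩]
        exact one_ne_zero
      · have hs : sym = true := by
          cases sym with
          | true => rfl
          | false => exact absurd (hι h6).symm (hπs rfl i)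
        have h7 : Pos sym R (ι i, ι (π i)) := ⟨Or.inr ⟨hs, h6⟩, hRi⟩
        rw [dif_pos h7]
        simp only [zf]
        rw [dif_pos ⟨i, Or.inl rfl⟩, MvPolynomial.eval_X]
        simp only [c]
        rw [if_pos ⟨i, rfl, rfl⟩]
        exact one_ne_zero
      · have h7 : Pos sym R (ι (π i), ι i) := ⟨Or.inl h6, hR _ _ hRi⟩
        have h8 : ¬ Pos sym R (ι i, ι (π i)) := by
          rintro ⟨h9 | ⟨_, h9⟩, _⟩
          · exact lt_asymm h6 h9
          · exact absurd h9 (ne_of_gt h6)
        rw [dif_neg h8, dif_pos h7]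
        simp only [zf]
        rw [dif_pos ⟨i, Or.inr rfl⟩, map_mul, MvPolynomial.eval_X]
        simp only [c]
        rw [if_pos ⟨π i, rfl, by rw [hπ]⟩, mul_one, map_sg]
        unfold sg
        split_ifs
        · exact one_ne_zero
        · exact neg_ne_zero.2 one_ne_zero
    · intro i j hj
      simp only [Matrix.map_apply, Pf, Matrix.submatrix_apply, mat]
      split_ifs with h6 h7
      · simp only [zf]
        rw [dif_pos ⟨i, Or.inl rfl⟩, MvPolynomial.eval_X]
        simp only [c]
        rw [if_neg]
        rintro ⟨i', h8, h9⟩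
        have h10 := hι h8
        subst h10
        exact hj (hι h9).symm
      · simp only [zf]
        rw [dif_pos ⟨i, Or.inr rfl⟩, map_mul, MvPolynomial.eval_X]
        simp only [c]
        rw [if_neg, mul_zero]
        rintro ⟨i', h8, h9⟩
        have h10 := hι h8
        subst h10
        have h11 := hι h9
        rw [← h11, hπ] at hj
        exact hj rfl
      · exact map_zero _
  have hu1 : IsUnit P.det := isUnit_iff_ne_zero.2 hdet
  set Z : Matrix V V L := A.submatrix id ι * P⁻¹ * A.submatrix ι id with hZ
  have hZr : ∀ i b, Z (ι i) b = A (ι i) b := by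
    intro i b
    have h1 : (A.submatrix id ι * P⁻¹).submatrix ι id = 1 := by
      have : (A.submatrix id ι * P⁻¹).submatrix ι id = P * P⁻¹ := rfl
      rw [this, Matrix.mul_nonsing_inv P hu1]
    have h2 : Z (ι i) b = ((A.submatrix id ι * P⁻¹).submatrix ι id * A.submatrix ι id) i b := rfl
    rw [h2, h1, Matrix.one_mul]
    rfl
  have hAs : ∀ a b, A b a = sg L sym * A a b := fun a b => mat_symm sym R u a b
  have hZs : ∀ a b, Z b a = sg L sym * Z a b := by
    have hAt : Aᵀ = sg L sym • A := by
      ext a b
      exact hAs a b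
    have hPt : (P⁻¹)ᵀ = sg L sym • P⁻¹ := by
      rw [Matrix.transpose_nonsing_inv]
      have h1 : Pᵀ = sg L sym • P := by
        ext a b
        exact hAs _ _
      rw [h1]
      refine Matrix.inv_eq_left_inv ?_
      rw [Matrix.smul_mul, Matrix.mul_smul, smul_smul, sg_mul_sg, one_smul,
        Matrix.nonsing_inv_mul P hu1]
    have h1 : Zᵀ = sg L sym • Z := by
      rw [hZ, Matrix.transpose_mul, Matrix.transpose_mul, hPt]
      have h2 : (A.submatrix ι id)ᵀ = sg L sym • A.submatrix id ι := by
        ext a b
        exact hAs _ _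
      have h3 : (A.submatrix id ι)ᵀ = sg L sym • A.submatrix ι id := by
        ext a b
        exact hAs _ _
      rw [h2, h3]
      simp only [Matrix.smul_mul, Matrix.mul_smul, smul_smul, sg_mul_sg, one_mul, mul_one,
        Matrix.mul_assoc, one_smul]
    intro a b
    have := congrFun (congrFun h1 a) b
    exact this
  have hZc : ∀ i a, Z a (ι i) = A a (ι i) := by
    intro i a
    rw [hZs (ι i) a, hZr, hAs (ι i) a]
  have hZd : sym = false → ∀ a, Z a a = 0 := by
    intro hs a
    have h1 := hZs a a
    rw [hs] at h1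
    simp only [sg, Bool.false_eq_true, if_false, neg_mul, one_mul] at h1
    have h2 : (2 : L) * Z a a = 0 := by linear_combination h1
    exact (mul_eq_zero.1 h2).resolve_left two_ne_zero
  have hZR : ∀ a b, ¬ R a b → Z a b = 0 := by
    intro a b hab
    rw [hZ, Matrix.mul_apply]
    refine Finset.sum_eq_zero fun j _ => ?_
    rw [Matrix.mul_apply, Finset.sum_mul]
    refine Finset.sum_eq_zero fun i _ => ?_
    by_contra hne
    have h1 : A a (ι i) ≠ 0 := fun h => hne (by
      simp only [Matrix.submatrix_apply, id_eq, h, zero_mul])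
    have h2 : P⁻¹ i j ≠ 0 := fun h => hne (by rw [h, mul_zero, zero_mul])
    have h3 : A (ι j) b ≠ 0 := fun h => hne (by
      simp only [Matrix.submatrix_apply, id_eq, h, mul_zero])
    have h4 : R a (ι i) := by
      by_contra h; exact h1 (mat_eq_zero sym R hR u h)
    have h5 : R (ι j) b := by
      by_contra h; exact h3 (mat_eq_zero sym R hR u h)
    have h6 : R (ι i) (ι j) := by
      by_contra h
      exact h2 (inv_supp P hdet (fun i j => R (ι i) (ι j)) (fun _ _ h => hR _ _ h)
        (fun _ _ _ _ h h' h'' => hR3 _ _ _ _ h h' h'')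
        (fun i j h => mat_eq_zero sym R hR u h) h)
    exact hab (hR3 _ _ _ _ h4 h6 h5)
  refine ⟨fun x => Z x.1.1 x.1.2, ?_, ?_⟩
  · rintro ⟨⟨a, b⟩, hx⟩ ⟨i, h1 | h1⟩
    · simp only at h1
      subst h1
      show Z (ι i) b = _
      rw [hZr, hA, mat, dif_pos hx]
    · simp only at h1
      subst h1
      show Z a (ι i) = _
      rw [hZc, hA, mat, dif_pos hx]
  · rw [mat_of sym R hR Z hZs hZd hZR, hZ]
    exact (Matrix.rank_mul_le_right _ _).trans (Matrix.rank_le_card_height _)

end Pool.Agent.R837.FE
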