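import Pool.Agent.R837.FE.Block

/-!
# The block of a square matrix
-/

set_option autoImplicit false
set_option linter.unusedSectionVars false

namespace Pool.Agent.R837.FE

open Finset MvPolynomial Pool.Agent.TH144.NV

/-- the rows and columns of a square matrix -/
inductive Two (n : ℕ) : Type
  | row : Fin n → Two n
  | col : Fin n → Two n
  deriving DecidableEq, Fintype

namespace Two

variable {n : ℕ}

/-- the rows come first -/
def pos : Two n → ℕ
  | row a => a
  | col b => n + b

theorem pos_injective : Function.Injective (pos (n := n)) := by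
  rintro (a | a) (b | b) h
  · simp only [pos] at h
    rw [Fin.ext h]
  · simp only [pos] at h
    omega
  · simp only [pos] at h
    omega
  · simp only [pos] at h
    have h1 : a = b := Fin.ext (by omega)
    rw [h1]

noncomputable instance : LinearOrder (Two n) := LinearOrder.lift' pos pos_injective

theorem lt_iff {x y : Two n} : x < y ↔ x.pos < y.pos := Iff.rfl

theorem row_lt_col (a b : Fin n) : row a < col b := by
  rw [lt_iff]
  simp only [pos]
  omega

theorem not_col_lt_row (a b : Fin n) : ¬ col b < row a := by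
  rw [lt_iff]
  simp only [pos]
  omega

theorem card : Fintype.card (Two n) = 2 * n := by
  have e : Two n ≃ Fin n ⊕ Fin n :=
    { toFun := fun x => match x with | row a => Sum.inl a | col b => Sum.inr b
      invFun := fun x => match x with | Sum.inl a => row a | Sum.inr b => col b
      left_inv := by rintro (a | a) <;> rfl
      right_inv := by rintro (a | a) <;> rfl }
  rw [Fintype.card_congr e, Fintype.card_sum, Fintype.card_fin]
  ring

end Two

open Two

section
variable {k : Type} [Field k] {n : ℕ}

/-- matching of rows and columns -/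
def RG (t s : Fin n → kˣ) : Two n → Two n → Prop
  | row a, col b => t a * s b = 1
  | col b, row a => t a * s b = 1
  | row _, row _ => False
  | col _, col _ => False

/-- the alternating matrix of twice the size -/
def MG {S : Type} [CommRing S] (M : Matrix (Fin n) (Fin n) S) : Matrix (Two n) (Two n) S
  | row a, col b => M a b
  | col b, row a => - M a b
  | row _, row _ => 0
  | col _, col _ => 0

/-- the degrees -/
def EG (e f : Fin n → ℤ) : Two n → ℤ
  | row a => e a
  | col b => f b

theorem card_K_gen (t s : Fin n → kˣ) [DecidablePred fun x : Fin n × Fin n => t x.1 * s x.2 = 1] :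
    Nat.card (K false (RG t s)) =
      (univ.filter fun x : Fin n × Fin n => t x.1 * s x.2 = 1).card := by
  rw [← Fintype.card_subtype, ← Nat.card_eq_fintype_card]
  symm
  refine Nat.card_congr (Equiv.ofBijective (fun x : {x : Fin n × Fin n // t x.1 * s x.2 = 1} =>
    (⟨(row x.1.1, col x.1.2), Or.inl (row_lt_col _ _), x.2⟩ : K false (RG t s))) ⟨?_, ?_⟩)
  · rintro ⟨⟨a, b⟩, h⟩ ⟨⟨a', b'⟩, h'⟩ he
    have h1 := congrArg (fun x : K false (RG t s) => x.1) he
    simp only [Prod.mk.injEq, row.injEq, col.injEq] at h1
    obtain ⟨rfl, rfl⟩ := h1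
    rfl
  · rintro ⟨⟨x, y⟩, h1, h2⟩
    rcases x with a | a <;> rcases y with b | b
    · exact h2.elim
    · exact ⟨⟨(a, b), h2⟩, rfl⟩
    · exfalso
      rcases h1 with h1 | ⟨h1, _⟩
      · exact not_col_lt_row _ _ h1
      · exact Bool.false_ne_true h1
    · exact h2.elim

theorem rank_MG (A : Matrix (Fin n) (Fin n) k) {r : ℕ} (h : (MG A).rank ≤ 2 * r) : A.rank ≤ r := by
  rw [rank_le_iff_minors]
  intro p c
  by_contra hd
  set A' := A.submatrix p c with hA'
  have hu : IsUnit A'.det := isUnit_iff_ne_zero.2 hd
  let g : Fin (r + 1) ⊕ Fin (r + 1) → Two n := Sum.elim (fun i => row (p i)) fun i => col (c i)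
  have h1 : (MG A).submatrix g g = Matrix.fromBlocks 0 A' (-A'.transpose) 0 := by
    ext x y
    rcases x with i | i <;> rcases y with j | j <;> rfl
  have h2 : Matrix.fromBlocks 0 A' (-A'.transpose) 0 *
      Matrix.fromBlocks 0 (-A'.transpose⁻¹) A'⁻¹ 0 = 1 := by
    rw [Matrix.fromBlocks_multiply]
    simp only [Matrix.zero_mul, Matrix.mul_zero, zero_add, add_zero, Matrix.neg_mul,
      Matrix.mul_neg, neg_neg]
    rw [Matrix.mul_nonsing_inv A' hu, Matrix.mul_nonsing_inv A'.transpose (by
      rw [Matrix.det_transpose]; exact hu), neg_zero, Matrix.fromBlocks_one]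
  have h3 : (Matrix.fromBlocks 0 A' (-A'.transpose) 0).det ≠ 0 := by
    intro h0
    have h4 := congrArg Matrix.det h2
    rw [Matrix.det_mul, h0, zero_mul, Matrix.det_one] at h4
    exact zero_ne_one h4
  have h4 := Matrix.rank_of_det_ne_zero h3
  have h5 := Matrix.rank_submatrix_le (MG A) g g
  rw [h1, h4, Fintype.card_sum, Fintype.card_fin] at h5
  omega

end

section
variable {k : Type} [Field k] {G : Type} [Group G] {N n : ℕ} {w : Fin N → ℕ}
  {α : Fin N → G →* kˣ}

/-- the restricted block -/
noncomputable def ibGen (e f : Fin n → ℤ) (hpos : ∀ a b, 0 < e a + f b)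
    (M : Matrix (Fin n) (Fin n) (MvPolynomial (Fin N) k))
    (hhom : ∀ a b (m : ℕ), (m : ℤ) = e a + f b → IsWeightedHomogeneous w (M a b) m)
    (χ ψ : Fin n → G →* kˣ)
    (semi : ∀ g a b, act (fun i => (α i g : k)) (M a b) = C ((χ a g * ψ b g : kˣ) : k) * M a b)
    (g : G) (μ : kˣ) (T : Finset (Fin N)) (hT : ∀ i, i ∈ T ↔ α i g = μ ^ w i)
    (B : Finset (Two n)) (hB : Adm false (RG (fun a => rc μ (χ a g) (e a))
      fun b => rc μ (ψ b g) (f b)) B) : IB k N w T where
  V := Two n
  ft := inferInstance
  lo := inferInstance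
  sym := false
  R := RG (fun a => rc μ (χ a g) (e a)) fun b => rc μ (ψ b g) (f b)
  hR := by
    rintro (a | a) (b | b) h
    · exact h
    · exact h
    · exact h
    · exact h
  hR3 := by
    rintro (a | a) (b | b) (c | c) (d | d) h1 h2 h3
    all_goals first
      | exact h1.elim
      | exact h2.elim
      | exact h3.elim
      | skip
    · simp only [RG] at h1 h2 h3 ⊢
      calc _ = (rc μ (χ a g) (e a) * rc μ (ψ b g) (f b)) *
            (rc μ (χ c g) (e c) * rc μ (ψ d g) (f d)) *
            (rc μ (χ c g) (e c) * rc μ (ψ b g) (f b))⁻¹ := by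
              rw [mul_inv]
              generalize rc μ (χ a g) (e a) = A
              generalize rc μ (ψ b g) (f b) = B
              generalize rc μ (χ c g) (e c) = C
              generalize rc μ (ψ d g) (f d) = D
              rw [show A * B * (C * D) * (C⁻¹ * B⁻¹) = A * D * (B * B⁻¹) * (C * C⁻¹) by
                simp only [mul_comm, mul_left_comm, mul_assoc], mul_inv_cancel, mul_inv_cancel,
                mul_one, mul_one]
        _ = 1 := by rw [h1, h2, h3]; simp
    · simp only [RG] at h1 h2 h3 ⊢
      calc _ = (rc μ (χ b g) (e b) * rc μ (ψ a g) (f a)) *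
            (rc μ (χ d g) (e d) * rc μ (ψ c g) (f c)) *
            (rc μ (χ b g) (e b) * rc μ (ψ c g) (f c))⁻¹ := by
              rw [mul_inv]
              generalize rc μ (χ b g) (e b) = A
              generalize rc μ (ψ a g) (f a) = B
              generalize rc μ (χ d g) (e d) = C
              generalize rc μ (ψ c g) (f c) = D
              rw [show A * B * (C * D) * (A⁻¹ * D⁻¹) = C * B * (A * A⁻¹) * (D * D⁻¹) by
                simp only [mul_comm, mul_left_comm, mul_assoc], mul_inv_cancel, mul_inv_cancel,
                mul_one, mul_one]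
        _ = 1 := by rw [h1, h2, h3]; simp
  M := MG M
  hM := by
    rintro (a | a) (b | b) <;> simp [MG, sg]
  hMd := by
    rintro _ (a | a) <;> rfl
  e := EG e f
  f := EG e f
  hef := fun a b _ => add_comm _ _
  dg := fun x => (EG e f x.1.1 + EG e f x.1.2).toNat
  hdg0 := by
    rintro ⟨⟨x, y⟩, h1, h2⟩
    rcases x with a | a <;> rcases y with b | b
    · exact h2.elim
    · have := hpos a b
      simp only [EG]; omega
    · have := hpos b a
      simp only [EG]; omega
    · exact h2.elim
  hdg := by
    rintro ⟨⟨x, y⟩, h1, h2⟩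
    rcases x with a | a <;> rcases y with b | b
    · exact h2.elim
    · have := hpos a b
      simp only [EG]; omega
    · have := hpos b a
      simp only [EG]; omega
    · exact h2.elim
  hhom := by
    rintro ⟨⟨x, y⟩, h1, h2⟩
    rcases x with a | a <;> rcases y with b | b
    · exact h2.elim
    · have := hpos a b
      exact hhom a b _ (by simp only [EG]; omega)
    · have := hpos b a
      exact (hhom b a _ (by simp only [EG]; omega)).neg
    · exact h2.elim
  hvan := by
    intro x y hxy p hp
    have key : ∀ a b, ¬ rc μ (χ a g) (e a) * rc μ (ψ b g) (f b) = 1 → eval p (M a b) = 0 := by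
      intro a b hab
      refine van hT (hpos a b) (hhom a b) (semi g a b) ?_ p hp
      rwa [rc_mul_rc] at hab
    rcases x with a | a <;> rcases y with b | b
    · simp [MG]
    · exact key a b hxy
    · simp only [MG, map_neg, neg_eq_zero]
      exact key b a hxy
    · simp [MG]
  B := B
  hB := hB

theorem exists_bd_gen [CharZero k] (e f : Fin n → ℤ) (hpos : ∀ a b, 0 < e a + f b)
    (M : Matrix (Fin n) (Fin n) (MvPolynomial (Fin N) k))
    (hhom : ∀ a b (m : ℕ), (m : ℤ) = e a + f b → IsWeightedHomogeneous w (M a b) m)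
    (χ ψ : Fin n → G →* kˣ)
    (semi : ∀ g a b, act (fun i => (α i g : k)) (M a b) = C ((χ a g * ψ b g : kˣ) : k) * M a b)
    {r : ℕ} (hr : r < n) :
    Nonempty (BD k G N w α (2 * (n - r) * (∑ a, (e a + f a)))
      fun p => (M.map (eval p)).rank ≤ r) := by
  classical
  have hcomb : ∀ (g : G) (μ : kˣ), ∃ B, Adm false (RG (fun a => rc μ (χ a g) (e a))
      fun b => rc μ (ψ b g) (f b)) B ∧ B.card ≤ 2 * r ∧
      r * Nat.card (K false (RG (fun a => rc μ (χ a g) (e a)) fun b => rc μ (ψ b g) (f b))) ≤
      n * (tch false (RG (fun a => rc μ (χ a g) (e a)) fun b => rc μ (ψ b g) (f b)) B).card := by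
    intro g μ
    obtain ⟨B, h1, h2, h3⟩ := comb_alt (sym := false) (R := RG (fun a => rc μ (χ a g) (e a))
      fun b => rc μ (ψ b g) (f b)) (by
        rintro (a | a) (b | b) h
        · exact h
        · exact h
        · exact h
        · exact h) rfl r
    refine ⟨B, h1, h2, ?_⟩
    rcases h3 with h3 | ⟨ν, h3, h4, h5, _⟩
    · rw [h3]
      exact Nat.mul_le_mul_right _ hr.le
    · rw [Two.card] at h4
      exact h5.trans (Nat.mul_le_mul_right _ (by omega))
  choose B hB1 hB2 hB3 using hcomb
  refine ⟨
    { P := Fin n × Fin n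
      ft := inferInstance
      c := fun _ => n - r
      d := fun x => (e x.1 + f x.2).toNat
      hd := fun x => by have := hpos x.1 x.2; omega
      X := fun x => χ x.1 * ψ x.2
      q := n
      hq := by omega
      htop := ?_
      ib := fun g μ T hT => ibGen e f hpos M hhom χ ψ semi g μ T hT (B g μ) (hB1 g μ)
      rank := ?_
      count := ?_ }⟩
  · have h1 : ∀ x : Fin n × Fin n, (((e x.1 + f x.2).toNat : ℕ) : ℤ) = e x.1 + f x.2 := fun x => by
      have := hpos x.1 x.2; omega
    have h2 : ∑ x : Fin n × Fin n, ((n - r : ℕ) : ℤ) * (((e x.1 + f x.2).toNat : ℕ) : ℤ) =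
        ∑ x : Fin n × Fin n, ((n - r : ℕ) : ℤ) * (e x.1 + f x.2) :=
      Finset.sum_congr rfl fun x _ => by rw [h1 x]
    rw [h2, Fintype.sum_prod_type]
    push_cast [Nat.cast_sub hr.le]
    simp only [mul_add, Finset.sum_add_distrib, Finset.sum_const, Finset.card_univ,
      Fintype.card_fin, nsmul_eq_mul, ← Finset.mul_sum]
    ring
  · intro g μ T hT p _ hrk
    apply rank_MG
    refine le_trans ?_ (hrk.trans (hB2 g μ))
    have h1 : (ibGen e f hpos M hhom χ ψ semi g μ T hT (B g μ) (hB1 g μ)).M.map (eval p) =
        MG (M.map (eval p)) := by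
      ext x y
      rcases x with a | a <;> rcases y with b | b
      · exact map_zero (eval p)
      · rfl
      · exact map_neg (eval p) _
      · exact map_zero (eval p)
    rw [h1]
    exact le_refl _
  · intro g μ T hT E hE
    rw [Finset.sum_const, smul_eq_mul]
    have h1 : (ibGen e f hpos M hhom χ ψ semi g μ T hT (B g μ) (hB1 g μ)).kc = E.card := by
      show Nat.card (K false (RG (fun a => rc μ (χ a g) (e a))
        fun b => rc μ (ψ b g) (f b))) = _
      rw [card_K_gen]
      congr 1
      ext x
      rw [Finset.mem_filter, hE, rc_mul_rc, rc_eq_one μ _ _ ((e x.1 + f x.2).toNat) (by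
        have := hpos x.1 x.2; omega)]
      simp
    have h2 : r * (ibGen e f hpos M hhom χ ψ semi g μ T hT (B g μ) (hB1 g μ)).kc ≤
        n * (ibGen e f hpos M hhom χ ψ semi g μ T hT (B g μ) (hB1 g μ)).tc := hB3 g μ
    rw [← h1]
    set Kc := (ibGen e f hpos M hhom χ ψ semi g μ T hT (B g μ) (hB1 g μ)).kc
    set Tc := (ibGen e f hpos M hhom χ ψ semi g μ T hT (B g μ) (hB1 g μ)).tc
    rw [Nat.mul_sub]
    obtain ⟨d, hd⟩ := Nat.exists_eq_add_of_lt hr
    have h3 : Kc * (n - r) + r * Kc = n * Kc := by
      rw [hd]
      have : r + d + 1 - r = d + 1 := by omega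
      rw [this]
      ring
    omega

end

end Pool.Agent.R837.FE
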