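import Mathlib

/-! Rank and minors (universe polymorphic copy of `Pool.Agent.Helper56.Ulr.MinorsRank`). -/

set_option autoImplicit false

namespace Pool.Agent.R837.FE

open Matrix

theorem exists_rows {k : Type*} [Field k] {a b : Type*} [Fintype a] [Fintype b]
    (A : Matrix a b k) (s : ℕ) (h : s ≤ A.rank) :
    ∃ f : Fin s → a, LinearIndependent k (A.submatrix f id).row := by
  classical
  obtain ⟨κ, e, he, hsp, hli⟩ := exists_linearIndependent' k A.row
  have : Finite κ := Finite.of_injective e he
  let _ : Fintype κ := Fintype.ofFinite κ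
  have hc : Fintype.card κ = A.rank := by
    rw [rank_eq_finrank_span_row, ← hsp]
    exact linearIndependent_iff_card_eq_finrank_span.mp hli
  have : s ≤ Fintype.card κ := by omega
  let g : Fin s → κ := fun i => (Fintype.equivFin κ).symm (Fin.castLE this i)
  have hg : Function.Injective g := by
    intro i j hij
    have := (Fintype.equivFin κ).symm.injective hij
    exact Fin.castLE_injective _ this
  refine ⟨fun i => e (g i), ?_⟩
  have := hli.comp g hg
  exact this

theorem rank_le_iff_minors {k : Type*} [Field k] {a b : Type*} [Fintype a] [Fintype b]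
    [DecidableEq a] [DecidableEq b] (A : Matrix a b k) (r : ℕ) :
    A.rank ≤ r ↔ ∀ (f : Fin (r + 1) → a) (g : Fin (r + 1) → b), (A.submatrix f g).det = 0 := by
  constructor
  · intro h f g
    by_contra hd
    have h1 := rank_of_det_ne_zero hd
    have h2 := rank_submatrix_le A f g
    rw [Fintype.card_fin] at h1
    omega
  · intro h
    by_contra hr
    push Not at hr
    obtain ⟨f, hf⟩ := exists_rows A (r + 1) hr
    have h1 : (A.submatrix f id).rank = r + 1 := by
      rw [hf.rank_matrix, Fintype.card_fin]
    have h2 : ((A.submatrix f id)ᵀ).rank = r + 1 := by rw [rank_transpose, h1]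
    obtain ⟨g, hg⟩ := exists_rows ((A.submatrix f id)ᵀ) (r + 1) h2.ge
    have h3 := h f g
    have h4 : IsUnit (((A.submatrix f id)ᵀ).submatrix g id) :=
      linearIndependent_rows_iff_isUnit.mp hg
    have h5 := (Matrix.isUnit_iff_isUnit_det _).mp h4
    have h6 : (((A.submatrix f id)ᵀ).submatrix g id) = (A.submatrix f g)ᵀ := rfl
    rw [h6, det_transpose, h3] at h5
    exact not_isUnit_zero h5

end Pool.Agent.R837.FE
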