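import Pool.Agent.R837.FE.Dim
import Pool.Agent.R837.FE.Comb
import Pool.Agent.R837.FE.Minors
import Pool.Agent.TH144.NV.Basic

/-!
# The number of coordinates in a subspace which meets the cone only in the origin
-/

set_option autoImplicit false
set_option linter.unusedSectionVars false

namespace Pool.Agent.R837.FE

open Finset MvPolynomial

theorem det_hom {k τ : Type*} [Field k] (W : τ → ℕ) {n : ℕ}
    (A : Matrix (Fin n) (Fin n) (MvPolynomial τ k)) (e f : Fin n → ℤ)
    (hA : ∀ i j, A i j = 0 ∨ ∃ m : ℕ, (m : ℤ) = e i + f j ∧ IsWeightedHomogeneous W (A i j) m) :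
    ∃ m, IsWeightedHomogeneous W A.det m := by
  refine ⟨(∑ i, e i + ∑ i, f i).toNat, ?_⟩
  rw [Matrix.det_apply]
  refine IsWeightedHomogeneous.sum _ _ _ fun π _ => ?_
  have h1 : IsWeightedHomogeneous W (∏ i, A (π i) i) (∑ i, e i + ∑ i, f i).toNat := by
    by_cases h : ∃ i, A (π i) i = 0
    · obtain ⟨i, hi⟩ := h
      have h2 : ∏ i, A (π i) i = 0 := Finset.prod_eq_zero (Finset.mem_univ i) hi
      rw [h2]
      exact isWeightedHomogeneous_zero _ _ _
    · push Not at h
      have h2 : ∀ i, ∃ m : ℕ, (m : ℤ) = e (π i) + f i ∧ IsWeightedHomogeneous W (A (π i) i) m :=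
        fun i => (hA (π i) i).resolve_left (h i)
      choose m hm hm' using h2
      have h3 := IsWeightedHomogeneous.prod (w := W) univ (fun i => A (π i) i) m fun i _ => hm' i
      have h4 : ((∑ i, m i : ℕ) : ℤ) = ∑ i, e i + ∑ i, f i := by
        rw [Nat.cast_sum, Finset.sum_congr rfl fun i _ => hm i, Finset.sum_add_distrib,
          Equiv.sum_comp π e]
      have h5 : (∑ i, e i + ∑ i, f i).toNat = ∑ i, m i := by omega
      rw [h5]
      exact h3
  rcases Int.units_eq_one_or (Equiv.Perm.sign π) with h2 | h2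
  · rw [h2, one_smul]; exact h1
  · rw [h2]
    have : ((-1 : ℤˣ) • ∏ i, A (π i) i) = -∏ i, A (π i) i := by
      rw [Units.smul_def]; simp
    rw [this]
    exact h1.neg

theorem exists_generic' {k L : Type*} [Field k] [Field L] [CharZero L] [Algebra k L] {V : Type*}
    [Fintype V] [LinearOrder V] (sym : Bool) (R : V → V → Prop) (hR : ∀ a b, R a b → R b a)
    (hR3 : ∀ a b c d, R a b → R b c → R c d → R a d) (B : Finset V) (hB : Adm sym R B)
    (u : K sym R → L)
    (hu : AlgebraicIndependent k (fun x : {x : K sym R // x ∈ tch sym R B} => u x.1)) :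
    ∃ z : K sym R → L, (∀ x ∈ tch sym R B, z x = u x) ∧
      (mat sym R z).rank ≤ B.card := by
  obtain ⟨π, h1, h2, h3, h4⟩ := hB
  have hiff : ∀ x : K sym R, (∃ i : {v // v ∈ B}, (i : V) = x.1.1 ∨ (i : V) = x.1.2) ↔
      x ∈ tch sym R B := by
    intro x
    rw [mem_tch]
    constructor
    · rintro ⟨i, h | h⟩
      · exact Or.inl (h ▸ i.2)
      · exact Or.inr (h ▸ i.2)
    · rintro (h | h)
      · exact ⟨⟨_, h⟩, Or.inl rfl⟩
      · exact ⟨⟨_, h⟩, Or.inr rfl⟩
  let f : {x : K sym R // ∃ i : {v // v ∈ B}, (i : V) = x.1.1 ∨ (i : V) = x.1.2} →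
      {x : K sym R // x ∈ tch sym R B} := fun x => ⟨x.1, (hiff x.1).1 x.2⟩
  have hf : Function.Injective f := by
    intro x y h
    apply Subtype.ext
    exact congrArg (fun a : {x : K sym R // x ∈ tch sym R B} => a.1) h
  have hu' := hu.comp f hf
  obtain ⟨z, hz, hr⟩ := exists_generic (k := k) sym R hR hR3 (I := {v // v ∈ B}) Subtype.val
    Subtype.val_injective (fun b => ⟨π b.1, h1 _ b.2⟩) (fun b => Subtype.ext (h2 _ b.2))
    (fun b => h3 _ b.2) (fun hs b h => h4 hs _ b.2 (congrArg Subtype.val h)) u hu'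
  refine ⟨z, fun x hx => hz x ((hiff x).2 hx), ?_⟩
  rwa [Fintype.card_coe] at hr

/-- the number of coordinates -/
theorem key {k : Type*} [Field k] [IsAlgClosed k] [CharZero k] {σ : Type*} [Fintype σ]
    (w : σ → ℕ) (T : Finset σ) {Λ : Type*} [Fintype Λ] (V : Λ → Type)
    [∀ l, Fintype (V l)] [∀ l, LinearOrder (V l)] (sym : Λ → Bool) (R : ∀ l, V l → V l → Prop)
    (hR : ∀ l a b, R l a b → R l b a)
    (hR3 : ∀ l a b c d, R l a b → R l b c → R l c d → R l a d)
    (M : ∀ l, Matrix (V l) (V l) (MvPolynomial σ k))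
    (hM : ∀ l a b, M l b a = sg _ (sym l) * M l a b)
    (hMd : ∀ l, sym l = false → ∀ a, M l a a = 0)
    (e f : ∀ l, V l → ℤ) (hef : ∀ l a b, R l a b → e l a + f l b = e l b + f l a)
    (dg : ∀ l, K (sym l) (R l) → ℕ) (hdg0 : ∀ l x, 0 < dg l x)
    (hdg : ∀ l (x : K (sym l) (R l)), (dg l x : ℤ) = e l x.1.1 + f l x.1.2)
    (hhom : ∀ l (x : K (sym l) (R l)), IsWeightedHomogeneous w (M l x.1.1 x.1.2) (dg l x))
    (hw : ∀ i, 0 < w i)
    (hvan : ∀ l a b, ¬ R l a b → ∀ p : σ → k, (∀ i, i ∉ T → p i = 0) → eval p (M l a b) = 0)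
    (B : ∀ l, Finset (V l)) (hB : ∀ l, Adm (sym l) (R l) (B l))
    (h0 : ∀ p : σ → k, (∀ i, i ∉ T → p i = 0) →
      (∀ l, ((M l).map (eval p)).rank ≤ (B l).card) → p = 0) :
    T.card + ∑ l, (tch (sym l) (R l) (B l)).card ≤ ∑ l, Nat.card (K (sym l) (R l)) := by
  classical
  let τ := σ ⊕ (Σ l, K (sym l) (R l))
  let W : τ → ℕ := Sum.elim w fun x => dg x.1 x.2
  have hW : ∀ i, 0 < W i := by
    rintro (i | ⟨l, x⟩)
    · exact hw i
    · exact hdg0 l x
  let fm : ∀ l, Matrix (V l) (V l) (MvPolynomial τ k) := fun l =>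
    mat (sym l) (R l) fun x => X (Sum.inr ⟨l, x⟩)
  let φ := {i // i ∉ T} ⊕ (Σ l, K (sym l) (R l))
  let F : φ → MvPolynomial τ k := Sum.elim (fun i => X (Sum.inl i.1)) fun x =>
    rename Sum.inl (M x.1 x.2.1.1 x.2.1.2) - X (Sum.inr x)
  let D : φ → ℕ := Sum.elim (fun i => w i.1) fun x => dg x.1 x.2
  have hren : ∀ (p : MvPolynomial σ k) (m : ℕ), IsWeightedHomogeneous w p m →
      IsWeightedHomogeneous W (rename Sum.inl p : MvPolynomial τ k) m := by
    intro p m hp d hd
    obtain ⟨d', rfl, hd'⟩ := coeff_rename_ne_zero Sum.inl p d hd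
    have h1 := hp hd'
    rw [← h1, Finsupp.weight_apply, Finsupp.weight_apply,
      Finsupp.sum_mapDomain_index (by simp) (by intro a b c; rw [add_smul])]
    rfl
  let ι := Σ l, (Fin ((B l).card + 1) → V l) × (Fin ((B l).card + 1) → V l)
  let g : ι → MvPolynomial τ k := fun x => ((fm x.1).submatrix x.2.1 x.2.2).det
  have hg : ∀ j : ι, ∃ m, IsWeightedHomogeneous W (g j) m := by
    rintro ⟨l, r, c⟩
    refine det_hom W _ (fun i => e l (r i)) (fun j => f l (c j)) ?_
    intro i j
    simp only [Matrix.submatrix_apply, fm, mat]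
    split_ifs with h1 h2
    · right
      exact ⟨dg l ⟨_, h1⟩, hdg l ⟨_, h1⟩, isWeightedHomogeneous_X k W (Sum.inr ⟨l, ⟨_, h1⟩⟩)⟩
    · right
      refine ⟨dg l ⟨_, h2⟩, ?_, ?_⟩
      · rw [hdg l ⟨_, h2⟩]
        exact hef l _ _ h2.2
      · have h3 := isWeightedHomogeneous_X k W (Sum.inr ⟨l, ⟨_, h2⟩⟩)
        unfold sg
        split_ifs
        · rw [one_mul]; exact h3
        · rw [neg_one_mul]; exact h3.neg
    · left; rfl
  choose m hm using hg
  -- the generic point
  let L := FractionRing (MvPolynomial τ k)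
  have : CharZero L := charZero_of_injective_algebraMap
    (IsFractionRing.injective (MvPolynomial τ k) L)
  let u : τ → L := fun i => algebraMap (MvPolynomial τ k) L (X i)
  have hu : AlgebraicIndependent k u := by
    have h1 := MvPolynomial.algebraicIndependent_X τ k
    have h2 := h1.map' (f := IsScalarTower.toAlgHom k (MvPolynomial τ k) L)
      (IsFractionRing.injective (MvPolynomial τ k) L)
    exact h2
  have hgen : ∀ l, ∃ z : K (sym l) (R l) → L,
      (∀ x ∈ tch (sym l) (R l) (B l), z x = u (Sum.inr ⟨l, x⟩)) ∧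
      (mat (sym l) (R l) z).rank ≤ (B l).card := by
    intro l
    let fl : {x : K (sym l) (R l) // x ∈ tch (sym l) (R l) (B l)} → τ :=
      fun x => Sum.inr ⟨l, x.1⟩
    have hfl : Function.Injective fl := by
      intro x y h
      apply Subtype.ext
      have h1 : (⟨l, x.1⟩ : Σ l, K (sym l) (R l)) = ⟨l, y.1⟩ := Sum.inr_injective h
      simpa using h1
    have hul := hu.comp fl hfl
    exact exists_generic' (k := k) (sym l) (R l) (hR l) (hR3 l) (B l) (hB l)
      (fun x => u (Sum.inr ⟨l, x⟩)) hul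
  choose z hz hrk using hgen
  let y : τ → L := Sum.elim (fun i => u (Sum.inl i)) fun x => z x.1 x.2
  let ι0 := σ ⊕ (Σ l, {x : K (sym l) (R l) // x ∈ tch (sym l) (R l) (B l)})
  let em : ι0 → τ := Sum.elim Sum.inl fun x => Sum.inr ⟨x.1, x.2.1⟩
  have hem : Function.Injective em := by
    rintro (i | ⟨l, x⟩) (j | ⟨l', x'⟩) h
    · exact congrArg Sum.inl (Sum.inl_injective h)
    · exact absurd h Sum.inl_ne_inr
    · exact absurd h Sum.inr_ne_inl
    · have h1 : (⟨l, x.1⟩ : Σ l, K (sym l) (R l)) = ⟨l', x'.1⟩ := Sum.inr_injective h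
      obtain rfl : l = l' := congrArg Sigma.fst h1
      have h2 : x.1 = x'.1 := by simpa using h1
      rw [Subtype.ext h2]
  have hyem : (fun i => y (em i)) = fun i => u (em i) := by
    funext i
    rcases i with i | ⟨l, x⟩
    · rfl
    · exact hz l x.1 x.2
  have hcard := card_le (k := k) W F D (by
      rintro (i | ⟨l, x⟩)
      · exact hw i.1
      · exact hdg0 l x) (by
      rintro (i | ⟨l, x⟩)
      · exact isWeightedHomogeneous_X k W (Sum.inl i.1)
      · exact (hren _ _ (hhom l x)).sub (isWeightedHomogeneous_X k W (Sum.inr ⟨l, x⟩)))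
    g m hm (by
      intro x hF hgx
      set p : σ → k := fun i => x (Sum.inl i) with hp
      have hpT : ∀ i, i ∉ T → p i = 0 := by
        intro i hi
        have := hF (Sum.inl ⟨i, hi⟩)
        simpa [F] using this
      have hx : ∀ l κ, x (Sum.inr ⟨l, κ⟩) = eval p (M l κ.1.1 κ.1.2) := by
        intro l κ
        have := hF (Sum.inr ⟨l, κ⟩)
        simp only [F, Sum.elim_inr, map_sub, eval_X, eval_rename] at this
        exact (sub_eq_zero.1 this).symm
      have hmat : ∀ l, mat (sym l) (R l) (fun κ => x (Sum.inr ⟨l, κ⟩)) = (M l).map (eval p) := by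
        intro l
        have h1 := mat_of (sym l) (R l) (hR l) ((M l).map (eval p)) (by
          intro a b
          simp only [Matrix.map_apply]
          rw [hM l a b, map_mul]
          congr 1
          unfold sg
          split_ifs <;> simp) (by
          intro hs a
          simp only [Matrix.map_apply, hMd l hs a, map_zero]) (by
          intro a b hab
          exact hvan l a b hab p hpT)
        rw [← h1]
        congr 1
        funext κ
        exact hx l κ
      have hp0 : p = 0 := by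
        apply h0 p hpT
        intro l
        rw [rank_le_iff_minors]
        intro r c
        have h1 := hgx ⟨l, r, c⟩
        simp only [g] at h1
        rw [RingHom.map_det] at h1
        rw [← h1, ← hmat l]
        congr 1
        have h2 := mat_map (sym l) (R l) (fun κ => (X (Sum.inr ⟨l, κ⟩) : MvPolynomial τ k))
          (eval x)
        simp only [eval_X] at h2
        rw [← h2]
        rfl
      funext i
      rcases i with i | ⟨l, κ⟩
      · exact congrFun hp0 i
      · rw [hx l κ, hp0]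
        exact Pool.Agent.TH144.NV.eval_origin (hhom l κ) (hdg0 l κ))
    y (by
      rintro ⟨l, r, c⟩
      simp only [g]
      have h1 := (rank_le_iff_minors (mat (sym l) (R l) (z l))
        (B l).card).1 (hrk l) r c
      rw [AlgHom.map_det, ← h1]
      congr 1
      have h2 := mat_map (sym l) (R l) (fun κ => (X (Sum.inr ⟨l, κ⟩) : MvPolynomial τ k))
        (aeval y : MvPolynomial τ k →ₐ[k] L).toRingHom
      have h3 : (fun κ => (aeval y : MvPolynomial τ k →ₐ[k] L).toRingHom
          (X (Sum.inr ⟨l, κ⟩) : MvPolynomial τ k)) = z l := by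
        funext κ
        exact aeval_X _ _
      rw [h3] at h2
      rw [← h2]
      rfl)
    em (by
      rw [hyem]
      exact hu.comp em hem)
  have h1 : Fintype.card ι0 = Fintype.card σ + ∑ l, (tch (sym l) (R l) (B l)).card := by
    simp only [ι0, Fintype.card_sum, Fintype.card_sigma, Fintype.card_coe]
  have h2 : Fintype.card φ = (Fintype.card σ - T.card) + ∑ l, Nat.card (K (sym l) (R l)) := by
    simp only [φ, Fintype.card_sum, Fintype.card_sigma]
    congr 1
    · rw [Fintype.card_subtype_compl, Fintype.card_coe]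
    · exact Finset.sum_congr rfl fun l _ => (Nat.card_eq_fintype_card).symm
  rw [h1, h2] at hcard
  have h3 := Finset.card_le_univ T
  omega

end Pool.Agent.R837.FE
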