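import Pool.Agent.R837.FE.Block

/-!
# The blocks of alternating and of symmetric matrices
-/

set_option autoImplicit false
set_option linter.unusedSectionVars false

namespace Pool.Agent.R837.FE

open Finset MvPolynomial Pool.Agent.TH144.NV

section rc
variable {k : Type} [Field k]

theorem rc_inv (μ x : kˣ) (e : ℤ) : rc μ x⁻¹ (-e) = (rc μ x e)⁻¹ := by
  unfold rc
  rw [zpow_neg, mul_inv, inv_inv]

theorem rc_pow (μ x : kˣ) (e : ℤ) (m : ℕ) : rc μ (x ^ m) (m * e) = (rc μ x e) ^ m := by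
  induction m with
  | zero => simp [rc]
  | succ m ih =>
    rw [pow_succ, pow_succ, ← ih, rc_mul_rc]
    congr 1
    push_cast
    ring

theorem rc_prod {ι : Type} (s : Finset ι) (μ : kˣ) (x : ι → kˣ) (e : ι → ℤ) :
    rc μ (∏ i ∈ s, x i) (∑ i ∈ s, e i) = ∏ i ∈ s, rc μ (x i) (e i) := by
  classical
  induction s using Finset.induction_on with
  | empty => simp [rc]
  | insert a s ha ih =>
    rw [Finset.prod_insert ha, Finset.sum_insert ha, Finset.prod_insert ha, ← ih, rc_mul_rc]

end rc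

section sums
variable {n : ℕ}

/-- the positions -/
abbrev PosS (n : ℕ) (sym : Bool) := {x : Fin n × Fin n // x.1 < x.2 ∨ (sym = true ∧ x.1 = x.2)}

theorem sum_all (e f : Fin n → ℤ) (hsd : ∀ a b, e a + f b = e b + f a) :
    2 * ∑ x : Fin n × Fin n, (if x.1 < x.2 then e x.1 + f x.2 else 0) =
      (n - 1) * ∑ a, (e a + f a) := by
  have h1 : ∑ x : Fin n × Fin n, (e x.1 + f x.2) = n * ∑ a, (e a + f a) := by
    rw [Fintype.sum_prod_type]
    simp only [Finset.sum_add_distrib, Finset.sum_const, Finset.card_univ, Fintype.card_fin,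
      nsmul_eq_mul, ← Finset.mul_sum]
    ring
  have h2 : ∑ x : Fin n × Fin n, (if x.1 = x.2 then e x.1 + f x.2 else 0) =
      ∑ a, (e a + f a) := by
    rw [Fintype.sum_prod_type]
    refine Finset.sum_congr rfl fun a _ => ?_
    simp only
    rw [Finset.sum_ite_eq]
    simp
  have h3 : ∑ x : Fin n × Fin n, (if x.2 < x.1 then e x.1 + f x.2 else 0) =
      ∑ x : Fin n × Fin n, (if x.1 < x.2 then e x.1 + f x.2 else 0) := by
    rw [← (Equiv.prodComm (Fin n) (Fin n)).sum_comp]
    refine Finset.sum_congr rfl fun x _ => ?_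
    simp only [Equiv.prodComm_apply, Prod.fst_swap, Prod.snd_swap]
    split_ifs
    · exact hsd _ _
    · rfl
  have h4 : ∑ x : Fin n × Fin n, (e x.1 + f x.2) =
      ∑ x : Fin n × Fin n, (if x.1 < x.2 then e x.1 + f x.2 else 0) +
      ∑ x : Fin n × Fin n, (if x.1 = x.2 then e x.1 + f x.2 else 0) +
      ∑ x : Fin n × Fin n, (if x.2 < x.1 then e x.1 + f x.2 else 0) := by
    rw [← Finset.sum_add_distrib, ← Finset.sum_add_distrib]
    refine Finset.sum_congr rfl fun x _ => ?_
    rcases lt_trichotomy x.1 x.2 with h | h | h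
    · rw [if_pos h, if_neg h.ne, if_neg (lt_asymm h)]; ring
    · rw [if_neg h.not_lt, if_pos h, if_neg h.symm.not_lt]; ring
    · rw [if_neg (lt_asymm h), if_neg h.ne', if_pos h]; ring
  rw [h1, h2, h3] at h4
  linarith

theorem sum_alt (e f : Fin n → ℤ) (hsd : ∀ a b, e a + f b = e b + f a) :
    2 * ∑ x : PosS n false, (e x.1.1 + f x.1.2) = (n - 1) * ∑ a, (e a + f a) := by
  rw [← sum_all e f hsd, ← Finset.sum_filter]
  congr 1
  exact (Finset.sum_subtype _ (by simp) (fun x : Fin n × Fin n => e x.1 + f x.2)).symm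

theorem sum_sym (e f : Fin n → ℤ) (hsd : ∀ a b, e a + f b = e b + f a) :
    2 * ∑ x : PosS n true, (e x.1.1 + f x.1.2) = (n + 1) * ∑ a, (e a + f a) := by
  have h2 : ∑ x : Fin n × Fin n, (if x.1 = x.2 then e x.1 + f x.2 else 0) =
      ∑ a, (e a + f a) := by
    rw [Fintype.sum_prod_type]
    refine Finset.sum_congr rfl fun a _ => ?_
    simp only
    rw [Finset.sum_ite_eq]
    simp
  have h1 : ∑ x : PosS n true, (e x.1.1 + f x.1.2) =
      ∑ x : Fin n × Fin n, (if x.1 < x.2 ∨ x.1 = x.2 then e x.1 + f x.2 else 0) := by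
    rw [← Finset.sum_filter]
    exact (Finset.sum_subtype _ (by simp) (fun x : Fin n × Fin n => e x.1 + f x.2)).symm
  have h3 : ∑ x : Fin n × Fin n, (if x.1 < x.2 ∨ x.1 = x.2 then e x.1 + f x.2 else 0) =
      ∑ x : Fin n × Fin n, (if x.1 < x.2 then e x.1 + f x.2 else 0) +
      ∑ x : Fin n × Fin n, (if x.1 = x.2 then e x.1 + f x.2 else 0) := by
    rw [← Finset.sum_add_distrib]
    refine Finset.sum_congr rfl fun x _ => ?_
    by_cases h : x.1 < x.2
    · rw [if_pos (Or.inl h), if_pos h, if_neg h.ne]; ring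
    · by_cases h' : x.1 = x.2
      · rw [if_pos (Or.inr h'), if_neg h, if_pos h']; ring
      · rw [if_neg (not_or.2 ⟨h, h'⟩), if_neg h, if_neg h']; ring
  rw [h1, h3, h2, mul_add, sum_all e f hsd]
  ring

end sums

section
variable {k : Type} [Field k] {G : Type} [Group G] {N n : ℕ} {w : Fin N → ℕ}
  {α : Fin N → G →* kˣ}

/-- matching of indices -/
def RS (t s : Fin n → kˣ) (a b : Fin n) : Prop := t a * s b = 1

/-- the matching relation given by the characters -/
abbrev RSc (e f : Fin n → ℤ) (χ ψ : Fin n → G →* kˣ) (g : G) (μ : kˣ) : Fin n → Fin n → Prop :=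
  RS (fun a => rc μ (χ a g) (e a)) fun b => rc μ (ψ b g) (f b)

theorem rs_swap (e f : Fin n → ℤ) (hsd : ∀ a b, e a + f b = e b + f a)
    (χ ψ : Fin n → G →* kˣ) (hsc : ∀ a b, χ a * ψ b = χ b * ψ a) (g : G) (μ : kˣ) (a b : Fin n) :
    rc μ (χ a g) (e a) * rc μ (ψ b g) (f b) = rc μ (χ b g) (e b) * rc μ (ψ a g) (f a) := by
  rw [rc_mul_rc, rc_mul_rc, hsd a b]
  congr 1
  exact congrArg (fun x : G →* kˣ => x g) (hsc a b)

/-- the restricted block -/
noncomputable def ibSym (sym : Bool) (e f : Fin n → ℤ) (hsd : ∀ a b, e a + f b = e b + f a)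
    (hpos : ∀ a b, (a ≠ b ∨ sym = true) → 0 < e a + f b)
    (M : Matrix (Fin n) (Fin n) (MvPolynomial (Fin N) k))
    (hM : ∀ a b, M b a = sg _ sym * M a b) (hMd : sym = false → ∀ a, M a a = 0)
    (hhom : ∀ a b (m : ℕ), (m : ℤ) = e a + f b → IsWeightedHomogeneous w (M a b) m)
    (χ ψ : Fin n → G →* kˣ) (hsc : ∀ a b, χ a * ψ b = χ b * ψ a)
    (semi : ∀ g a b, act (fun i => (α i g : k)) (M a b) = C ((χ a g * ψ b g : kˣ) : k) * M a b)
    (g : G) (μ : kˣ) (T : Finset (Fin N)) (hT : ∀ i, i ∈ T ↔ α i g = μ ^ w i)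
    (B : Finset (Fin n)) (hB : Adm sym (RSc e f χ ψ g μ) B) : IB k N w T where
  V := Fin n
  ft := inferInstance
  lo := inferInstance
  sym := sym
  R := RSc e f χ ψ g μ
  hR := fun a b h => by
    have h1 := rs_swap e f hsd χ ψ hsc g μ a b
    exact h1.symm.trans h
  hR3 := fun a b c d h1 h2 h3 => by
    have h4 := rs_swap e f hsd χ ψ hsc g μ b c
    simp only [RSc, RS] at h1 h2 h3 ⊢
    rw [h2] at h4
    calc _ = (rc μ (χ a g) (e a) * rc μ (ψ b g) (f b)) *
          (rc μ (χ c g) (e c) * rc μ (ψ d g) (f d)) *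
          (rc μ (χ c g) (e c) * rc μ (ψ b g) (f b))⁻¹ := by
            rw [mul_inv]
            generalize rc μ (χ a g) (e a) = A
            generalize rc μ (ψ b g) (f b) = B
            generalize rc μ (χ c g) (e c) = C
            generalize rc μ (ψ d g) (f d) = D
            rw [show A * B * (C * D) * (C⁻¹ * B⁻¹) = A * D * (B * B⁻¹) * (C * C⁻¹) by
              simp only [mul_comm, mul_left_comm, mul_assoc], mul_inv_cancel, mul_inv_cancel,
              mul_one, mul_one]
      _ = 1 := by rw [h1, h3, ← h4]; simp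
  M := M
  hM := hM
  hMd := hMd
  e := e
  f := f
  hef := fun a b _ => hsd a b
  dg := fun x => (e x.1.1 + f x.1.2).toNat
  hdg0 := by
    rintro ⟨⟨a, b⟩, h1, h2⟩
    have := hpos a b (by
      rcases h1 with h1 | h1
      · exact Or.inl (ne_of_lt h1)
      · exact Or.inr h1.1)
    simp only; omega
  hdg := by
    rintro ⟨⟨a, b⟩, h1, h2⟩
    have := hpos a b (by
      rcases h1 with h1 | h1
      · exact Or.inl (ne_of_lt h1)
      · exact Or.inr h1.1)
    simp only; omega
  hhom := by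
    rintro ⟨⟨a, b⟩, h1, h2⟩
    have := hpos a b (by
      rcases h1 with h1 | h1
      · exact Or.inl (ne_of_lt h1)
      · exact Or.inr h1.1)
    exact hhom a b _ (by simp only; omega)
  hvan := by
    intro a b hab p hp
    by_cases h : a ≠ b ∨ sym = true
    · refine van hT (hpos a b h) (hhom a b) (semi g a b) ?_ p hp
      simp only [RSc, RS] at hab
      rwa [rc_mul_rc] at hab
    · push Not at h
      obtain ⟨h1, h2⟩ := h
      rw [h1, hMd (by simpa using h2) b, map_zero]
  B := B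
  hB := hB

theorem exists_bd_of (sym : Bool) (e f : Fin n → ℤ) (hsd : ∀ a b, e a + f b = e b + f a)
    (hpos : ∀ a b, (a ≠ b ∨ sym = true) → 0 < e a + f b)
    (M : Matrix (Fin n) (Fin n) (MvPolynomial (Fin N) k))
    (hM : ∀ a b, M b a = sg _ sym * M a b) (hMd : sym = false → ∀ a, M a a = 0)
    (hhom : ∀ a b (m : ℕ), (m : ℤ) = e a + f b → IsWeightedHomogeneous w (M a b) m)
    (χ ψ : Fin n → G →* kˣ) (hsc : ∀ a b, χ a * ψ b = χ b * ψ a)
    (semi : ∀ g a b, act (fun i => (α i g : k)) (M a b) = C ((χ a g * ψ b g : kˣ) : k) * M a b)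
    (r q cx cy sd : ℕ) (hq : 0 < q) (hsd0 : 0 < sd) (Xs : G →* kˣ) (top2 : ℤ)
    (hB : ∀ (g : G) (μ : kˣ), ∃ B, Adm sym (RSc e f χ ψ g μ) B ∧ B.card ≤ r ∧
      (q * (Nat.card (K sym (RSc e f χ ψ g μ)) - (tch sym (RSc e f χ ψ g μ) B).card) ≤
        cx * Nat.card (K sym (RSc e f χ ψ g μ)) ∨
      (Xs g = μ ^ sd ∧
        q * (Nat.card (K sym (RSc e f χ ψ g μ)) - (tch sym (RSc e f χ ψ g μ) B).card) ≤
        cx * Nat.card (K sym (RSc e f χ ψ g μ)) + cy)))
    (htop : (q : ℤ) * top2 = 2 * (cx * ∑ x : PosS n sym, (e x.1.1 + f x.1.2) + cy * sd)) :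
    Nonempty (BD k G N w α top2 fun p => (M.map (eval p)).rank ≤ r) := by
  classical
  choose B hB1 hB2 hB3 using hB
  have hpos' : ∀ x : PosS n sym, 0 < e x.1.1 + f x.1.2 := by
    rintro ⟨⟨a, b⟩, h1⟩
    refine hpos a b ?_
    rcases h1 with h1 | h1
    · exact Or.inl (ne_of_lt h1)
    · exact Or.inr h1.1
  refine ⟨
    { P := PosS n sym ⊕ Unit
      ft := inferInstance
      c := Sum.elim (fun _ => cx) fun _ => cy
      d := Sum.elim (fun x => (e x.1.1 + f x.1.2).toNat) fun _ => sd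
      hd := ?_
      X := Sum.elim (fun x => χ x.1.1 * ψ x.1.2) fun _ => Xs
      q := q
      hq := hq
      htop := ?_
      ib := fun g μ T hT => ibSym sym e f hsd hpos M hM hMd hhom χ ψ hsc semi g μ T hT (B g μ)
        (hB1 g μ)
      rank := ?_
      count := ?_ }⟩
  · rintro (x | x)
    · have := hpos' x
      simp only [Sum.elim_inl]; omega
    · exact hsd0
  · rw [Fintype.sum_sum_type, htop]
    simp only [Sum.elim_inl, Sum.elim_inr, Finset.univ_unique, Finset.sum_singleton]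
    rw [← Finset.mul_sum]
    congr 3
    refine Finset.sum_congr rfl fun x _ => ?_
    have := hpos' x
    omega
  · intro g μ T hT p _ hrk
    exact hrk.trans (hB2 g μ)
  · intro g μ T hT E hE
    have h1 : (ibSym sym e f hsd hpos M hM hMd hhom χ ψ hsc semi g μ T hT (B g μ) (hB1 g μ)).kc =
        E.toLeft.card := by
      show Nat.card (K sym (RSc e f χ ψ g μ)) = _
      rw [← Fintype.card_coe, ← Nat.card_eq_fintype_card]
      have h2 : ∀ x : PosS n sym, RSc e f χ ψ g μ x.1.1 x.1.2 ↔ x ∈ E.toLeft := by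
        intro x
        have := hpos' x
        rw [Finset.mem_toLeft, hE]
        simp only [Sum.elim_inl, RSc, RS]
        rw [rc_mul_rc, rc_eq_one μ _ _ ((e x.1.1 + f x.1.2).toNat) (by omega)]
        rfl
      refine Nat.card_congr ((Equiv.subtypeSubtypeEquivSubtypeInter _ _).symm.trans
        (Equiv.subtypeEquivRight h2))
    have h2 : ∑ p ∈ E, Sum.elim (fun _ : PosS n sym => cx) (fun _ : Unit => cy) p =
        E.toLeft.card * cx + E.toRight.card * cy := by
      conv_lhs => rw [← Finset.toLeft_disjSum_toRight (u := E)]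
      rw [Finset.sum_disjSum]
      simp
    rw [h2, ← h1]
    have h3 := hB3 g μ
    have h4 : Nat.card (K sym (RSc e f χ ψ g μ)) =
      (ibSym sym e f hsd hpos M hM hMd hhom χ ψ hsc semi g μ T hT (B g μ) (hB1 g μ)).kc := rfl
    have h5 : (tch sym (RSc e f χ ψ g μ) (B g μ)).card =
      (ibSym sym e f hsd hpos M hM hMd hhom χ ψ hsc semi g μ T hT (B g μ) (hB1 g μ)).tc := rfl
    rw [h4, h5] at h3
    rcases h3 with h3 | ⟨h3, h6⟩
    · refine h3.trans ?_
      rw [mul_comm]
      exact Nat.le_add_right _ _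
    · have h7 : E.toRight.card = 1 := by
        have h8 : () ∈ E.toRight := by
          rw [Finset.mem_toRight, hE]
          exact h3
        have : E.toRight = {()} := by
          ext x
          simp [h8]
        rw [this, Finset.card_singleton]
      rw [h7, one_mul, mul_comm _ cx]
      exact h6

end

end Pool.Agent.R837.FE
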