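import Pool.Agent.R837.FE.SymBlock

/-!
# The inequalities for the blocks of alternating and of symmetric matrices
-/

set_option autoImplicit false
set_option linter.unusedSectionVars false

namespace Pool.Agent.R837.FE

open Finset MvPolynomial Pool.Agent.TH144.NV

section
variable {k : Type} [Field k] {G : Type} [Group G] {N n : ℕ} {w : Fin N → ℕ}
  {α : Fin N → G →* kˣ}

theorem count_of {h s K T : ℕ} (hs : s ≤ h) (hT : T ≤ K) (h1 : s * K ≤ h * T) :
    h * (K - T) ≤ (h - s) * K := by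
  obtain ⟨d, rfl⟩ := Nat.exists_eq_add_of_le hs
  obtain ⟨c, rfl⟩ := Nat.exists_eq_add_of_le hT
  rw [Nat.add_sub_cancel_left, Nat.add_sub_cancel_left]
  nlinarith

theorem count_of' {h s K T : ℕ} (hs : s ≤ h) (hT : T ≤ K) (h1 : s * (K - 1) ≤ h * T) :
    h * (K - T) ≤ (h - s) * K + s := by
  rcases Nat.eq_zero_or_pos K with h0 | h0
  · subst h0
    simp
  obtain ⟨d, rfl⟩ := Nat.exists_eq_add_of_le hs
  obtain ⟨c, rfl⟩ := Nat.exists_eq_add_of_le hT
  rw [Nat.add_sub_cancel_left, Nat.add_sub_cancel_left]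
  obtain ⟨m, hm⟩ : ∃ m, T + c = m + 1 := ⟨T + c - 1, by omega⟩
  rw [hm, Nat.add_sub_cancel] at h1
  rw [hm]
  have h2 : (s + d) * (T + c) = (s + d) * (m + 1) := by rw [hm]
  nlinarith

theorem tch_le {V : Type} [Fintype V] [LinearOrder V] (sym : Bool) (R : V → V → Prop)
    (B : Finset V) : (tch sym R B).card ≤ Nat.card (K sym R) := by
  classical
  rw [Nat.card_eq_fintype_card]
  exact Finset.card_le_univ _

/-- rank zero -/
theorem exists_bd_zero (sym : Bool) (e f : Fin n → ℤ) (hsd : ∀ a b, e a + f b = e b + f a)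
    (hpos : ∀ a b, (a ≠ b ∨ sym = true) → 0 < e a + f b)
    (M : Matrix (Fin n) (Fin n) (MvPolynomial (Fin N) k))
    (hM : ∀ a b, M b a = sg _ sym * M a b) (hMd : sym = false → ∀ a, M a a = 0)
    (hhom : ∀ a b (m : ℕ), (m : ℤ) = e a + f b → IsWeightedHomogeneous w (M a b) m)
    (χ ψ : Fin n → G →* kˣ) (hsc : ∀ a b, χ a * ψ b = χ b * ψ a)
    (semi : ∀ g a b, act (fun i => (α i g : k)) (M a b) = C ((χ a g * ψ b g : kˣ) : k) * M a b)
    (top2 : ℤ) (htop : top2 = 2 * ∑ x : PosS n sym, (e x.1.1 + f x.1.2)) :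
    Nonempty (BD k G N w α top2 fun p => (M.map (eval p)).rank ≤ 0) := by
  refine exists_bd_of sym e f hsd hpos M hM hMd hhom χ ψ hsc semi 0 1 1 0 1 one_pos one_pos 1 top2
    ?_ (by rw [htop]; push_cast; ring)
  intro g μ
  refine ⟨∅, adm_empty, by simp, Or.inl ?_⟩
  rw [one_mul, one_mul]
  exact Nat.sub_le _ _

/-- the degree and the character of the Pfaffian -/
theorem pf_char (e f : Fin n → ℤ) (hsd : ∀ a b, e a + f b = e b + f a)
    (hpos : ∀ a b, a ≠ b → 0 < e a + f b)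
    (χ ψ : Fin n → G →* kˣ) (hsc : ∀ a b, χ a * ψ b = χ b * ψ a) {h : ℕ} (hn : n = 2 * h + 2) :
    ∃ (sd : ℕ) (Xs : G →* kˣ), 0 < sd ∧ 2 * (sd : ℤ) = ∑ a, (e a + f a) ∧
      ∀ (g : G) (μ : kˣ), Adm false (RSc e f χ ψ g μ) univ → Xs g = μ ^ sd := by
  classical
  have hn0 : 0 < n := by omega
  set a0 : Fin n := ⟨0, hn0⟩ with ha0
  have hc : ∀ a, e a = f a + (e a0 - f a0) := fun a => by
    have := hsd a a0
    linarith
  have hsum : ∑ a, (e a + f a) = 2 * ((h + 1 : ℕ) * (e a0 - f a0) + ∑ a, f a) := by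
    have h1 : ∑ a, (e a + f a) = ∑ a : Fin n, (2 * f a + (e a0 - f a0)) := by
      refine Finset.sum_congr rfl fun a _ => ?_
      rw [hc a]; ring
    rw [h1, Finset.sum_add_distrib, ← Finset.mul_sum]
    simp only [Finset.sum_const, Finset.card_univ, Fintype.card_fin, nsmul_eq_mul]
    have hn' : (n : ℤ) = 2 * h + 2 := by exact_mod_cast hn
    rw [hn']
    push_cast
    ring
  have hpos' : 0 < ∑ a, (e a + f a) := by
    have h1 : ∑ a, (e a + f a) = ∑ a : Fin n, (e a + f (Fin.rev a)) := by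
      rw [Finset.sum_add_distrib, Finset.sum_add_distrib]
      congr 1
      exact (Equiv.sum_comp Fin.revPerm f).symm
    rw [h1]
    refine Finset.sum_pos (fun a _ => hpos _ _ ?_) ⟨a0, mem_univ _⟩
    intro h2
    have h3 := congrArg Fin.val h2
    rw [Fin.val_rev] at h3
    omega
  have hD : 0 < (h + 1 : ℕ) * (e a0 - f a0) + ∑ a, f a := by linarith
  refine ⟨((h + 1 : ℕ) * (e a0 - f a0) + ∑ a, f a).toNat,
    (χ a0 * (ψ a0)⁻¹) ^ (h + 1) * ∏ a, ψ a, by omega, by rw [hsum]; omega, ?_⟩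
  rintro g μ ⟨π, -, h2, h3, h4⟩
  rw [← rc_eq_one μ _ ((h + 1 : ℕ) * (e a0 - f a0) + ∑ a, f a) _ (by omega)]
  have hx : ((χ a0 * (ψ a0)⁻¹) ^ (h + 1) * ∏ a, ψ a) g =
      (χ a0 g * (ψ a0 g)⁻¹) ^ (h + 1) * ∏ a, ψ a g := by
    rw [MonoidHom.mul_apply, MonoidHom.pow_apply, MonoidHom.mul_apply, MonoidHom.inv_apply,
      MonoidHom.finsetProd_apply]
  rw [hx, ← rc_mul_rc, rc_pow, rc_prod]
  set Θ := rc μ (χ a0 g * (ψ a0 g)⁻¹) (e a0 - f a0) with hΘ
  have hts : ∀ a, rc μ (χ a g) (e a) = Θ * rc μ (ψ a g) (f a) := by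
    intro a
    have h5 := rs_swap e f hsd χ ψ hsc g μ a a0
    have h6 : Θ = rc μ (χ a0 g) (e a0) * (rc μ (ψ a0 g) (f a0))⁻¹ := by
      rw [hΘ, sub_eq_add_neg, ← rc_mul_rc, rc_inv]
    rw [h6, eq_mul_inv_iff_mul_eq.2 h5]
    exact mul_right_comm _ _ _
  have hstep : ∀ a, Θ * (rc μ (ψ a g) (f a) * rc μ (ψ (π a) g) (f (π a))) = 1 := by
    intro a
    rw [← mul_assoc, ← hts]
    exact h3 a (mem_univ _)
  set A : Finset (Fin n) := univ.filter fun a => a < π a with hA
  set A' : Finset (Fin n) := univ.filter fun a => ¬ a < π a with hA'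
  have hAA' : ∀ a, a ∈ A ↔ π a ∈ A' := by
    intro a
    simp only [hA, hA', mem_filter, mem_univ, true_and]
    rw [h2 a (mem_univ _)]
    have := h4 rfl a (mem_univ _)
    constructor
    · intro h; exact lt_asymm h
    · intro h
      exact lt_of_le_of_ne (not_lt.1 h) this.symm
  have hbij : ∏ a ∈ A', rc μ (ψ a g) (f a) = ∏ a ∈ A, rc μ (ψ (π a) g) (f (π a)) := by
    refine (Finset.prod_bij (fun a _ => π a) ?_ ?_ ?_ ?_).symm
    · intro a ha; exact (hAA' a).1 ha
    · intro a _ b _ hab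
      rw [← h2 a (mem_univ _), ← h2 b (mem_univ _), hab]
    · intro b hb
      exact ⟨π b, (hAA' (π b)).2 (by rwa [h2 b (mem_univ _)]), h2 b (mem_univ _)⟩
    · intro a _; rfl
  have hcardA : A.card = A'.card := by
    refine Finset.card_bij (fun a _ => π a) ?_ ?_ ?_
    · intro a ha; exact (hAA' a).1 ha
    · intro a _ b _ hab
      rw [← h2 a (mem_univ _), ← h2 b (mem_univ _), hab]
    · intro b hb
      exact ⟨π b, (hAA' (π b)).2 (by rwa [h2 b (mem_univ _)]), h2 b (mem_univ _)⟩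
  have hcard : A.card + A'.card = n := by
    have := Finset.card_filter_add_card_filter_not (s := (univ : Finset (Fin n)))
      (fun a => a < π a)
    rwa [Finset.card_univ, Fintype.card_fin] at this
  have hA1 : A.card = h + 1 := by omega
  have hprod : ∏ a, rc μ (ψ a g) (f a) =
      (∏ a ∈ A, rc μ (ψ a g) (f a)) * ∏ a ∈ A', rc μ (ψ a g) (f a) :=
    (Finset.prod_filter_mul_prod_filter_not univ (fun a => a < π a) _).symm
  rw [hprod, hbij, ← hA1, ← Finset.prod_const, ← Finset.prod_mul_distrib,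
    ← Finset.prod_mul_distrib]
  exact Finset.prod_eq_one fun a _ => hstep a

/-- the block of an alternating matrix -/
theorem exists_bd_alt (e f : Fin n → ℤ) (hsd : ∀ a b, e a + f b = e b + f a)
    (hpos : ∀ a b, a ≠ b → 0 < e a + f b)
    (M : Matrix (Fin n) (Fin n) (MvPolynomial (Fin N) k))
    (hM : ∀ a b, M b a = - M a b) (hMd : ∀ a, M a a = 0)
    (hhom : ∀ a b (m : ℕ), (m : ℤ) = e a + f b → IsWeightedHomogeneous w (M a b) m)
    (χ ψ : Fin n → G →* kˣ) (hsc : ∀ a b, χ a * ψ b = χ b * ψ a)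
    (semi : ∀ g a b, act (fun i => (α i g : k)) (M a b) = C ((χ a g * ψ b g : kˣ) : k) * M a b)
    {r : ℕ} (hr : r < n) (hev : Even r) :
    Nonempty (BD k G N w α ((n - 1 - r) * ∑ a, (e a + f a))
      fun p => (M.map (eval p)).rank ≤ r) := by
  have hM' : ∀ a b, M b a = sg _ false * M a b := by
    intro a b
    rw [hM a b]
    simp [sg]
  have hpos' : ∀ a b, (a ≠ b ∨ false = true) → 0 < e a + f b := by
    rintro a b (h | h)
    · exact hpos a b h
    · exact absurd h Bool.false_ne_true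
  have hsum := sum_alt e f hsd
  obtain ⟨s, hs⟩ := hev
  rcases Nat.eq_zero_or_pos s with h0 | h0
  · subst h0
    obtain rfl : r = 0 := by omega
    refine exists_bd_zero false e f hsd hpos' M hM' (fun _ => hMd) hhom χ ψ hsc semi _ ?_
    rw [hsum]
    push_cast
    ring
  have hR : ∀ (g : G) (μ : kˣ) (a b : Fin n), RSc e f χ ψ g μ a b → RSc e f χ ψ g μ b a :=
    fun g μ a b h => (rs_swap e f hsd χ ψ hsc g μ a b).symm.trans h
  rcases Nat.even_or_odd n with ⟨m, hm⟩ | ⟨h, hn⟩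
  · -- even size
    obtain ⟨h, rfl⟩ : ∃ h, m = h + 1 := ⟨m - 1, by omega⟩
    have hn : n = 2 * h + 2 := by omega
    have hsh : s ≤ h := by omega
    obtain ⟨sd, Xs, hsd0, hsd2, hXs⟩ := pf_char e f hsd hpos χ ψ hsc hn
    refine exists_bd_of false e f hsd hpos' M hM' (fun _ => hMd) hhom χ ψ hsc semi r h (h - s) s sd
      (by omega) hsd0 Xs _ ?_ ?_
    · intro g μ
      obtain ⟨B, h1, h2, h3⟩ := comb_alt' (sym := false) (R := RSc e f χ ψ g μ) (hR g μ) rfl s h
        (by rw [Fintype.card_fin]; omega) hsh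
      refine ⟨B, h1, by omega, ?_⟩
      rcases h3 with h3 | ⟨h3, _, h4⟩
      · exact Or.inl (count_of hsh (tch_le _ _ _) h3)
      · exact Or.inr ⟨hXs g μ h3, count_of' hsh (tch_le _ _ _) h4⟩
    · have hn' : (n : ℤ) = 2 * h + 2 := by exact_mod_cast hn
      have hs' : (r : ℤ) = 2 * s := by rw [hs]; push_cast; ring
      rw [← hsd2] at hsum ⊢
      push_cast [Nat.cast_sub hsh] at hsum ⊢
      linear_combination (-(h - s : ℤ)) * hsum + 2 * sd * s * hn' - 2 * sd * h * hs'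
  · -- odd size
    have hsh : s ≤ h := by omega
    refine exists_bd_of false e f hsd hpos' M hM' (fun _ => hMd) hhom χ ψ hsc semi r h (h - s) 0 1
      (by omega) one_pos 1 _ ?_ ?_
    · intro g μ
      obtain ⟨B, h1, h2, h3⟩ := comb_alt' (sym := false) (R := RSc e f χ ψ g μ) (hR g μ) rfl s h
        (by rw [Fintype.card_fin]; omega) hsh
      refine ⟨B, h1, by omega, ?_⟩
      rcases h3 with h3 | ⟨_, h3, _⟩
      · exact Or.inl (count_of hsh (tch_le _ _ _) h3)
      · rw [Fintype.card_fin] at h3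
        omega
    · have hn' : (n : ℤ) = 2 * h + 1 := by exact_mod_cast hn
      have hs' : (r : ℤ) = 2 * s := by rw [hs]; push_cast; ring
      push_cast [Nat.cast_sub hsh] at hsum ⊢
      linear_combination (-(h - s : ℤ)) * hsum + (∑ a, (e a + f a)) * s * hn' -
        (∑ a, (e a + f a)) * h * hs'

/-- the block of a symmetric matrix of odd size -/
theorem exists_bd_sym (e f : Fin n → ℤ) (hsd : ∀ a b, e a + f b = e b + f a)
    (hpos : ∀ a b, 0 < e a + f b)
    (M : Matrix (Fin n) (Fin n) (MvPolynomial (Fin N) k))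
    (hM : ∀ a b, M b a = M a b)
    (hhom : ∀ a b (m : ℕ), (m : ℤ) = e a + f b → IsWeightedHomogeneous w (M a b) m)
    (χ ψ : Fin n → G →* kˣ) (hsc : ∀ a b, χ a * ψ b = χ b * ψ a)
    (semi : ∀ g a b, act (fun i => (α i g : k)) (M a b) = C ((χ a g * ψ b g : kˣ) : k) * M a b)
    {r : ℕ} (hr : r < n) (hev : Even r) (hodd : Odd n) :
    Nonempty (BD k G N w α ((n + 1 - r) * ∑ a, (e a + f a))
      fun p => (M.map (eval p)).rank ≤ r) := by
  have hM' : ∀ a b, M b a = sg _ true * M a b := by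
    intro a b
    rw [hM a b]
    simp [sg]
  have hpos' : ∀ a b, (a ≠ b ∨ true = true) → 0 < e a + f b := fun a b _ => hpos a b
  have hsum := sum_sym e f hsd
  obtain ⟨s, hs⟩ := hev
  rcases Nat.eq_zero_or_pos s with h0 | h0
  · subst h0
    obtain rfl : r = 0 := by omega
    refine exists_bd_zero true e f hsd hpos' M hM' (by simp) hhom χ ψ hsc semi _ ?_
    rw [hsum]
    push_cast
    ring
  have hR : ∀ (g : G) (μ : kˣ) (a b : Fin n), RSc e f χ ψ g μ a b → RSc e f χ ψ g μ b a :=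
    fun g μ a b h => (rs_swap e f hsd χ ψ hsc g μ a b).symm.trans h
  obtain ⟨h, hn⟩ := hodd
  have hsh : s ≤ h := by omega
  have hσ : 0 < ∑ a, (e a + f a) :=
    Finset.sum_pos (fun a _ => hpos a a) ⟨⟨0, by omega⟩, mem_univ _⟩
  refine exists_bd_of true e f hsd hpos' M hM' (by simp) hhom χ ψ hsc semi r h (h - s) s
    (∑ a, (e a + f a)).toNat (by omega) (by omega) (∏ a, (χ a * ψ a)) _ ?_ ?_
  · intro g μ
    obtain ⟨B, h1, h2, h3⟩ := comb_sym (sym := true) (R := RSc e f χ ψ g μ) (hR g μ) rfl s h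
      (by rw [Fintype.card_fin]; omega) hsh
    refine ⟨B, h1, by omega, ?_⟩
    rcases h3 with h3 | ⟨⟨π, -, h5, h6, -⟩, h4⟩
    · exact Or.inl (count_of hsh (tch_le _ _ _) h3)
    · refine Or.inr ⟨?_, count_of' hsh (tch_le _ _ _) h4⟩
      rw [← rc_eq_one μ _ (∑ a, (e a + f a)) _ (by omega), MonoidHom.finsetProd_apply, rc_prod]
      have h7 : ∏ a, rc μ ((χ a * ψ a) g) (e a + f a) =
          (∏ a, rc μ (χ a g) (e a)) * ∏ a, rc μ (ψ a g) (f a) := by
        rw [← Finset.prod_mul_distrib]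
        refine Finset.prod_congr rfl fun a _ => ?_
        rw [rc_mul_rc, MonoidHom.mul_apply]
      have hinv : Function.Involutive π := fun a => h5 a (mem_univ _)
      have h8 : ∏ a, rc μ (ψ a g) (f a) = ∏ a, rc μ (ψ (π a) g) (f (π a)) :=
        (Equiv.prod_comp hinv.toPerm (fun a => rc μ (ψ a g) (f a))).symm
      rw [h7, h8, ← Finset.prod_mul_distrib]
      exact Finset.prod_eq_one fun a _ => h6 a (mem_univ _)
  · have hT : ((∑ a, (e a + f a)).toNat : ℤ) = ∑ a, (e a + f a) := by omega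
    have hn' : (n : ℤ) = 2 * h + 1 := by exact_mod_cast hn
    have hs' : (r : ℤ) = 2 * s := by rw [hs]; push_cast; ring
    rw [hT]
    push_cast [Nat.cast_sub hsh] at hsum ⊢
    linear_combination (-(h - s : ℤ)) * hsum + (∑ a, (e a + f a)) * s * hn' -
      (∑ a, (e a + f a)) * h * hs'

end

end Pool.Agent.R837.FE
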