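import Pool.Agent.R837.FE.Block

/-!
# The averaged inequality for several blocks
-/

set_option autoImplicit false
set_option linter.unusedSectionVars false

namespace Pool.Agent.R837.FE

open Finset MvPolynomial Pool.Agent.TH144.NV

open Classical in
theorem main_ineq_w {k : Type} [Field k] [IsAlgClosed k] [CharZero k] {G : Type} [Group G]
    [Finite G] {σ τ : Type} [Fintype σ] [Fintype τ] (w : σ → ℕ) (hw : ∀ i, 0 < w i)
    (d : τ → ℕ) (hd : ∀ j, 0 < d j) (α : σ → G →* kˣ) (χ : τ → G →* kˣ) (h Q : ℕ) (a : τ → ℕ)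
    (H : ∀ (g : G) (μ : kˣ), μ ^ h ≠ 1 →
      Q * (univ.filter fun i => α i g = μ ^ w i).card ≤
        ∑ j ∈ univ.filter (fun j => χ j g = μ ^ d j), a j) :
    Q * ∑ i ∈ univ.filter (fun i => ¬ Good h (w i) (α i)), w i ≤ ∑ j, a j * d j := by
  have main := main_ineq (k := k) (G := G) (fun x : Fin Q × σ => w x.2) (fun x => hw x.2)
    (fun x : Σ j, Fin (a j) => d x.1) (fun x => hd x.1) (fun x => α x.2) (fun x => χ x.1) h (by
    intro g μ hμ
    have e1 : (univ.filter fun x : Fin Q × σ => α x.2 g = μ ^ w x.2).card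
        = Q * (univ.filter fun i => α i g = μ ^ w i).card := by
      have : (univ.filter fun x : Fin Q × σ => α x.2 g = μ ^ w x.2)
          = (univ : Finset (Fin Q)) ×ˢ (univ.filter fun i => α i g = μ ^ w i) := by
        ext x
        simp
      rw [this, Finset.card_product, Finset.card_univ, Fintype.card_fin]
    have e2 : (univ.filter fun x : Σ j, Fin (a j) => χ x.1 g = μ ^ d x.1).card
        = ∑ j ∈ univ.filter (fun j => χ j g = μ ^ d j), a j := by
      have : (univ.filter fun x : Σ j, Fin (a j) => χ x.1 g = μ ^ d x.1)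
          = (univ.filter (fun j => χ j g = μ ^ d j)).sigma fun j => (univ : Finset (Fin (a j))) := by
        ext x
        simp
      rw [this, Finset.card_sigma]
      simp
    rw [e1, e2]
    exact H g μ hμ)
  have e1 : ∑ x ∈ univ.filter (fun x : Fin Q × σ => ¬ Good h (w x.2) (α x.2)), w x.2
      = Q * ∑ i ∈ univ.filter (fun i => ¬ Good h (w i) (α i)), w i := by
    have : (univ.filter fun x : Fin Q × σ => ¬ Good h (w x.2) (α x.2))
        = (univ : Finset (Fin Q)) ×ˢ univ.filter (fun i => ¬ Good h (w i) (α i)) := by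
      ext x
      simp
    rw [this, Finset.sum_product]
    simp
  have e2 : ∑ x ∈ univ.filter (fun x : Σ j, Fin (a j) => ¬ Good h (d x.1) (χ x.1)), d x.1
      ≤ ∑ j, a j * d j := by
    refine (Finset.sum_le_sum_of_subset (Finset.filter_subset _ _)).trans ?_
    rw [Fintype.sum_sigma]
    simp
  rw [← e1]
  refine le_trans ?_ e2
  convert main

/-- the weights which take no part in level `h` -/
theorem total {k : Type} [Field k] [IsAlgClosed k] [CharZero k] {G : Type} [Group G]
    [Finite G] {N : ℕ} (w : Fin N → ℕ) (hw : ∀ i, 0 < w i) (α : Fin N → G →* kˣ) (h : ℕ)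
    {Λ : Type} [Fintype Λ] (top2 : Λ → ℤ) (rk : Λ → (Fin N → k) → Prop)
    (bd : ∀ l, BD k G N w α (top2 l) (rk l))
    (H0 : ∀ (g : G) (μ : kˣ), μ ^ h ≠ 1 → ∀ p : Fin N → k,
      (∀ i, p i ≠ 0 → α i g = μ ^ w i) → (∀ l, rk l p) → p = 0)
    (S : Finset (Fin N)) (hS : ∀ i, i ∈ S ↔ ¬ Good h (w i) (α i)) :
    2 * ∑ i ∈ S, (w i : ℤ) ≤ ∑ l, top2 l := by
  classical
  set Q : ℕ := ∏ l, (bd l).q with hQ
  set Ql : Λ → ℕ := fun l => ∏ l' ∈ univ.erase l, (bd l').q with hQl
  have hQQ : ∀ l, (bd l).q * Ql l = Q := fun l =>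
    Finset.mul_prod_erase univ (fun l => (bd l).q) (mem_univ l)
  have hQpos : 0 < Q := Finset.prod_pos fun l _ => (bd l).hq
  have h1 := main_ineq_w (k := k) (G := G) w hw (fun x : Σ l, (bd l).P => (bd x.1).d x.2)
    (fun x => (bd x.1).hd x.2) α (fun x => (bd x.1).X x.2) h Q
    (fun x => Ql x.1 * (bd x.1).c x.2) (by
    intro g μ hμ
    set T : Finset (Fin N) := univ.filter fun i => α i g = μ ^ w i with hT
    have hT' : ∀ i, i ∈ T ↔ α i g = μ ^ w i := by
      intro i
      simp [hT]
    have h2 := key' w hw T (fun l => (bd l).ib g μ T hT') (by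
      intro p hp hrk
      refine H0 g μ hμ p ?_ fun l => (bd l).rank g μ T hT' p hp (hrk l)
      intro i hi
      by_contra hcon
      exact hi (hp i fun h => hcon ((hT' i).1 h)))
    calc Q * T.card ≤ Q * ∑ l, (((bd l).ib g μ T hT').kc - ((bd l).ib g μ T hT').tc) :=
          Nat.mul_le_mul_left _ h2
      _ = ∑ l, Ql l * ((bd l).q *
          (((bd l).ib g μ T hT').kc - ((bd l).ib g μ T hT').tc)) := by
          rw [Finset.mul_sum]
          refine Finset.sum_congr rfl fun l _ => ?_
          rw [← hQQ l]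
          ring
      _ ≤ ∑ l, Ql l * ∑ p ∈ univ.filter (fun p => (bd l).X p g = μ ^ (bd l).d p), (bd l).c p := by
          refine Finset.sum_le_sum fun l _ => Nat.mul_le_mul_left _ ?_
          exact (bd l).count g μ T hT' _ (fun p => by simp)
      _ = ∑ x ∈ univ.filter (fun x : Σ l, (bd l).P => (bd x.1).X x.2 g = μ ^ (bd x.1).d x.2),
          Ql x.1 * (bd x.1).c x.2 := by
          have h3 : (univ.filter (fun x : Σ l, (bd l).P =>
              (bd x.1).X x.2 g = μ ^ (bd x.1).d x.2)) =
              (univ : Finset Λ).sigma fun l =>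
                univ.filter (fun p => (bd l).X p g = μ ^ (bd l).d p) := by
            ext x
            simp
          rw [h3, Finset.sum_sigma]
          exact Finset.sum_congr rfl fun l _ => Finset.mul_sum _ _ _)
  have h2 : ∑ i ∈ S, w i = ∑ i ∈ univ.filter (fun i => ¬ Good h (w i) (α i)), w i := by
    congr 1
    ext i
    rw [hS]
    simp
  rw [← h2] at h1
  have h3 : (Q : ℤ) * (2 * ∑ i ∈ S, (w i : ℤ)) ≤ Q * ∑ l, top2 l := by
    have h4 : (Q : ℤ) * ∑ i ∈ S, (w i : ℤ) ≤
        ∑ x : Σ l, (bd l).P, ((Ql x.1 : ℤ) * (bd x.1).c x.2) * (bd x.1).d x.2 := by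
      exact_mod_cast h1
    have h5 : 2 * ∑ x : Σ l, (bd l).P, ((Ql x.1 : ℤ) * (bd x.1).c x.2) * (bd x.1).d x.2 =
        Q * ∑ l, top2 l := by
      rw [Fintype.sum_sigma, Finset.mul_sum, Finset.mul_sum]
      refine Finset.sum_congr rfl fun l _ => ?_
      have h6 := (bd l).htop
      have h7 : (Q : ℤ) = (bd l).q * Ql l := by exact_mod_cast (hQQ l).symm
      rw [h7, mul_assoc, mul_comm (Ql l : ℤ), ← mul_assoc, h6, mul_assoc, Finset.sum_mul]
      congr 1
      exact Finset.sum_congr rfl fun p _ => by ring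
    linarith
  exact le_of_mul_le_mul_left h3 (by exact_mod_cast hQpos)

end Pool.Agent.R837.FE
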